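import Mathlib
import Pool.Agent.N733.TG.H0

set_option autoImplicit false

/-! Common multiples of the values `f p`, `p ∣ m`, for almost all `m` (helper790): few `m` for a given multiple. -/

namespace Pool.Agent.N790.CM

open Finset Classical
open Pool.Agent.N733.TG

/-- `f` takes every positive value at most `T` times at the primes -/
def FewTimes (f : ℕ → ℕ) (T : ℕ) : Prop :=
  ∀ (v : ℕ) (F : Finset ℕ), 1 ≤ v → (∀ p ∈ F, p.Prime ∧ f p = v) → F.card ≤ T

/-- `w` is divisible by `f p` for every prime `p > y` which divides `m` exactly once -/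
def Carries (f : ℕ → ℕ) (y : ℝ) (m w : ℕ) : Prop :=
  ∀ p : ℕ, p.Prime → y < p → p ∣ m → ¬ p ^ 2 ∣ m → f p ∣ w

/-- few squarefree `u` with `f p ∣ w` for all prime factors `p` of `u` -/
lemma fibre {f : ℕ → ℕ} {T : ℕ} (hf : FewTimes f T) {J w : ℕ} (hw : 1 ≤ w) (U : Finset ℕ)
    (h1 : ∀ u ∈ U, Squarefree u) (h3 : ∀ u ∈ U, u.primeFactors.card ≤ J)
    (h4 : ∀ u ∈ U, ∀ p ∈ u.primeFactors, f p ∣ w) : U.card ≤ ((T + 1) * w.divisors.card) ^ J := by
  obtain ⟨D, hD⟩ : ∃ D, D = U.biUnion Nat.primeFactors := ⟨_, rfl⟩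
  have hDm : ∀ p ∈ D, p.Prime ∧ f p ∣ w := by
    intro p hp
    rw [hD, mem_biUnion] at hp
    obtain ⟨u, hu, hpu⟩ := hp
    exact ⟨Nat.prime_of_mem_primeFactors hpu, h4 u hu p hpu⟩
  have hDc : D.card ≤ T * w.divisors.card := by
    apply card_le_mul_card_image_of_maps_to (f := f)
    · intro p hp
      rw [Nat.mem_divisors]
      exact ⟨(hDm p hp).2, by omega⟩
    · intro v hv
      exact hf v _ (Nat.pos_of_mem_divisors hv) (fun p hp => ⟨(hDm p (mem_filter.1 hp).1).1, (mem_filter.1 hp).2⟩)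
  have hinj : U.card ≤ (D.powerset.filter (fun S => S.card ≤ J)).card := by
    apply card_le_card_of_injOn (fun u => u.primeFactors)
    · intro u hu
      rw [mem_coe] at hu
      rw [mem_coe, mem_filter, mem_powerset]
      refine ⟨?_, h3 u hu⟩
      intro p hp
      rw [hD, mem_biUnion]
      exact ⟨u, hu, hp⟩
    · intro u hu v hv huv
      rw [mem_coe] at hu hv
      simp only at huv
      rw [← Nat.prod_primeFactors_of_squarefree (h1 u hu), ← Nat.prod_primeFactors_of_squarefree (h1 v hv), huv]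
  have h5 := card_small_subsets D J
  have h6 : 1 ≤ w.divisors.card := by
    rw [Nat.one_le_iff_ne_zero, Finset.card_ne_zero]
    exact ⟨1, Nat.one_mem_divisors.2 (by omega)⟩
  refine hinj.trans (h5.trans (Nat.pow_le_pow_left ?_ J))
  nlinarith

/-- a bound for the divisor function -/
lemma tau_le {n X w : ℕ} (hw1 : 1 ≤ w) (hwX : w ≤ X) :
    (w.divisors.card : ℝ) ^ n ≤ X * (1 + Real.log X) ^ (2 ^ n) := by
  refine le_trans ?_ (Pool.Agent.TH935.LD.tau_pow_sum n X)
  exact single_le_sum (f := fun n' : ℕ => (n'.divisors.card : ℝ) ^ n) (fun _ _ => by positivity)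
    (mem_Icc.2 ⟨hw1, hwX⟩)

/-- the bound for large smooth parts, `J` about `l / (4 q)` -/
lemma s1_numq {CR C' K₁ η β L l w lz zb q : ℝ} {A J : ℕ} {N Y : ℝ} (hq : 0 < q)
    (hCR0 : 0 < CR) (hC'0 : 0 < C') (hη0 : 0 < η) (hC' : C' = 4 * q * (A + 2) / η)
    (hK₁ : K₁ = Real.exp (4 * Real.exp C' * (C' + CR)))
    (hN : 0 < N) (hL0 : 0 < L) (hexpl : Real.exp l = L) (hl : 0 ≤ l)
    (hY : Y = Real.exp (η * L)) (hβw : β * w = C') (hβL : β * L = C' * (J + 1)) (hβ0 : 0 ≤ β) (hβ1 : β ≤ 1 / 4)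
    (hJ2 : l / (4 * q) < J + 1) (hlz : lz ≤ w) (hlz0 : 0 ≤ lz) (hwL : w ≤ L) (hzb : zb ≤ Real.exp C') (hzb0 : 0 ≤ zb)
    (r4 : 4 * CR * K₁ ≤ L) :
    N * Y ^ (-β) * (CR * lz * Real.exp (4 * β * zb * (lz + CR))) ≤ N / (4 * L ^ A) := by
  have hK₁0 : 0 < K₁ := by rw [hK₁]; positivity
  have hLA : L ^ A = Real.exp (A * l) := by
    rw [Real.exp_nat_mul, hexpl]
  have h2 : Y ^ (-β) ≤ Real.exp (-((A + 2) * l)) := by
    rw [hY, ← Real.exp_mul]
    apply Real.exp_le_exp.2
    have e1 : η * L * -β = -(η * C') * (J + 1) := by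
      calc η * L * -β = -η * (β * L) := by ring
        _ = _ := by rw [hβL]; ring
    have e2 : η * C' = 4 * q * (A + 2) := by
      rw [hC']
      field_simp
    rw [e1, e2]
    have hA : (0 : ℝ) ≤ A := Nat.cast_nonneg _
    have e3 : 4 * q * ((A : ℝ) + 2) * (l / (4 * q)) ≤ 4 * q * (A + 2) * (J + 1) :=
      mul_le_mul_of_nonneg_left hJ2.le (by positivity)
    have e4 : 4 * q * ((A : ℝ) + 2) * (l / (4 * q)) = (A + 2) * l := by
      field_simp
    linarith
  have h4 : β * (lz + CR) ≤ C' + CR := by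
    have e1 : β * lz ≤ C' := by
      rw [← hβw]
      exact mul_le_mul_of_nonneg_left hlz hβ0
    have e2 : β * CR ≤ 1 * CR := mul_le_mul_of_nonneg_right (by linarith) hCR0.le
    rw [mul_add]
    linarith
  have h5 : Real.exp (4 * β * zb * (lz + CR)) ≤ K₁ := by
    rw [hK₁]
    apply Real.exp_le_exp.2
    have e0 : 0 ≤ β * (lz + CR) := mul_nonneg hβ0 (by linarith)
    calc 4 * β * zb * (lz + CR) = 4 * zb * (β * (lz + CR)) := by ring
      _ ≤ 4 * Real.exp C' * (C' + CR) := by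
        apply mul_le_mul _ h4 e0 (by positivity)
        linarith
  have h6 : CR * lz * Real.exp (4 * β * zb * (lz + CR)) ≤ CR * L * K₁ := by
    apply mul_le_mul _ h5 (Real.exp_pos _).le (by positivity)
    exact mul_le_mul_of_nonneg_left (by linarith) hCR0.le
  have h7 : 0 ≤ CR * lz * Real.exp (4 * β * zb * (lz + CR)) := by positivity
  calc N * Y ^ (-β) * (CR * lz * Real.exp (4 * β * zb * (lz + CR)))
      ≤ N * Real.exp (-((A + 2) * l)) * (CR * L * K₁) := by
        apply mul_le_mul _ h6 h7 (by positivity)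
        exact mul_le_mul_of_nonneg_left h2 hN.le
    _ = N * (CR * L * K₁) / (L ^ A * L * L) := by
        rw [Real.exp_neg, show ((A : ℝ) + 2) * l = A * l + l + l by ring, Real.exp_add, Real.exp_add, ← hLA, hexpl]
        field_simp
    _ ≤ N / (4 * L ^ A) := by
        rw [div_le_div_iff₀ (by positivity) (by positivity)]
        have e2 : 0 ≤ N * L ^ A * L := by positivity
        calc N * (CR * L * K₁) * (4 * L ^ A) = (N * L ^ A * L) * (4 * CR * K₁) := by ring
          _ ≤ (N * L ^ A * L) * L := mul_le_mul_of_nonneg_left r4 e2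
          _ = N * (L ^ A * L * L) := by ring

/-- `((T + 1) τ(w))^J` is small -/
lemma pow_num {B L l r ε δ : ℝ} {T J q X w : ℕ} (hq : 1 ≤ q) (hB : 0 ≤ B) (hδ0 : 0 < δ)
    (hqB : 16 * (B + 1) ≤ q * δ) (hX1 : 1 ≤ X) (hX : Real.log X ≤ B * L) (hLB : B + 1 ≤ L)
    (hrr : r * r = L) (hr : 16 ≤ r) (hexpl : Real.exp l = L) (hl : 0 ≤ l) (k1 : l ≤ ε * r) (hε : 0 ≤ ε) (hε1 : ε ≤ 1)
    (hεT : ε * (T + 1) ≤ δ / 16) (hexpr : Real.exp (l / 2) = r) (hJ1 : (J : ℝ) ≤ l / (4 * q))
    (hw1 : 1 ≤ w) (hwX : w ≤ X) :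
    (((T : ℝ) + 1) * w.divisors.card) ^ J ≤ Real.exp (3 * δ / 16 * L) := by
  have hqr : (1 : ℝ) ≤ q := by exact_mod_cast hq
  have hL0 : 0 < L := by rw [← hexpl]; exact Real.exp_pos _
  have hrL : r ≤ L := by nlinarith
  have hXr : (1 : ℝ) ≤ X := by exact_mod_cast hX1
  have hlogX : 0 ≤ Real.log X := Real.log_nonneg hXr
  have hJq : ((J * q : ℕ) : ℝ) ≤ l / 4 := by
    push_cast
    calc (J : ℝ) * q ≤ l / (4 * q) * q := mul_le_mul_of_nonneg_right hJ1 (by linarith)
      _ = l / 4 := by field_simp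
  have hJl : (J : ℝ) ≤ l := by
    have h1 : l / (4 * q) ≤ l / 1 := div_le_div_of_nonneg_left hl (by norm_num) (by linarith)
    linarith
  -- the divisor function
  have h1 := tau_le (n := J * q) hw1 hwX
  have h2 : (1 + Real.log X) ≤ Real.exp (2 * l) := by
    have e1 : Real.exp (2 * l) = L * L := by
      rw [show 2 * l = l + l by ring, Real.exp_add, hexpl]
    rw [e1]
    nlinarith
  have h3 : (2 : ℝ) ^ (J * q) ≤ r := by
    have e1 : (2 : ℝ) ≤ Real.exp 1 := by
      have := Real.exp_one_gt_d9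
      linarith
    calc (2 : ℝ) ^ (J * q) ≤ (Real.exp 1) ^ (J * q) := pow_le_pow_left₀ (by norm_num) e1 _
      _ = Real.exp (((J * q : ℕ) : ℝ) * 1) := by rw [← Real.exp_nat_mul]
      _ ≤ Real.exp (l / 2) := by
        apply Real.exp_le_exp.2
        linarith
      _ = r := hexpr
  have h4 : (1 + Real.log X) ^ (2 ^ (J * q)) ≤ Real.exp (2 * ε * L) := by
    calc (1 + Real.log X) ^ (2 ^ (J * q)) ≤ (Real.exp (2 * l)) ^ (2 ^ (J * q)) :=
          pow_le_pow_left₀ (by linarith) h2 _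
      _ = Real.exp ((2 : ℝ) ^ (J * q) * (2 * l)) := by
        rw [← Real.exp_nat_mul]
        push_cast
        rfl
      _ ≤ Real.exp (2 * ε * L) := by
        apply Real.exp_le_exp.2
        calc (2 : ℝ) ^ (J * q) * (2 * l) ≤ r * (2 * (ε * r)) := by
              apply mul_le_mul h3 (by linarith) (by linarith) (by linarith)
          _ = 2 * ε * L := by rw [← hrr]; ring
  have h5 : (X : ℝ) ≤ Real.exp (B * L) := by
    rw [← Real.exp_log (by linarith : (0 : ℝ) < X)]
    exact Real.exp_le_exp.2 hX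
  have h6 : ((w.divisors.card : ℝ) ^ J) ^ q ≤ (Real.exp (δ / 8 * L)) ^ q := by
    rw [← pow_mul]
    calc (w.divisors.card : ℝ) ^ (J * q) ≤ X * (1 + Real.log X) ^ (2 ^ (J * q)) := h1
      _ ≤ Real.exp (B * L) * Real.exp (2 * ε * L) := by
        apply mul_le_mul h5 h4 (by positivity) (Real.exp_pos _).le
      _ = Real.exp ((B + 2 * ε) * L) := by
        rw [← Real.exp_add]
        congr 1
        ring
      _ ≤ Real.exp (q * (δ / 8 * L)) := by
        apply Real.exp_le_exp.2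
        have e1 : B + 2 * ε ≤ q * δ / 8 := by linarith
        calc (B + 2 * ε) * L ≤ q * δ / 8 * L := mul_le_mul_of_nonneg_right e1 hL0.le
          _ = q * (δ / 8 * L) := by ring
      _ = _ := by rw [← Real.exp_nat_mul]
  have h7 : (w.divisors.card : ℝ) ^ J ≤ Real.exp (δ / 8 * L) :=
    (pow_le_pow_iff_left₀ (by positivity) (Real.exp_pos _).le (by omega)).1 h6
  have h8 : ((T : ℝ) + 1) ^ J ≤ Real.exp (δ / 16 * L) := by
    have e1 : (T : ℝ) + 1 ≤ Real.exp (T + 1) := by
      have := Real.add_one_le_exp ((T : ℝ) + 1)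
      linarith
    calc ((T : ℝ) + 1) ^ J ≤ (Real.exp (T + 1)) ^ J := pow_le_pow_left₀ (by positivity) e1 J
      _ = Real.exp (J * (T + 1)) := by rw [← Real.exp_nat_mul]
      _ ≤ Real.exp (δ / 16 * L) := by
        apply Real.exp_le_exp.2
        have hT : (0 : ℝ) ≤ T := Nat.cast_nonneg _
        calc (J : ℝ) * (T + 1) ≤ (ε * L) * (T + 1) := by
              apply mul_le_mul_of_nonneg_right _ (by positivity)
              have := mul_le_mul_of_nonneg_left hrL hε
              linarith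
          _ = (ε * (T + 1)) * L := by ring
          _ ≤ δ / 16 * L := mul_le_mul_of_nonneg_right hεT hL0.le
  rw [mul_pow]
  calc ((T : ℝ) + 1) ^ J * (w.divisors.card : ℝ) ^ J ≤ Real.exp (δ / 16 * L) * Real.exp (δ / 8 * L) :=
        mul_le_mul h8 h7 (by positivity) (Real.exp_pos _).le
    _ = Real.exp (3 * δ / 16 * L) := by
        rw [← Real.exp_add]
        congr 1
        ring

end Pool.Agent.N790.CM
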