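import Mathlib
import Pool.Agent.N790.CM.A

set_option autoImplicit false

/-! Common multiples of the values `f p`, `p ∣ m`, for almost all `m` (helper790): one scale. -/

namespace Pool.Agent.N790.CM

open Finset Classical
open Pool.Agent.N733.TG

/-- **One scale.** If `W` has at most `C₀ N^θ` elements up to `N^B`, then for all `m ≤ N` but `N / (log N)^A` no
`w ≤ N^B` in `W` is divisible by `f p` for all large primes `p` dividing `m` exactly once. -/
theorem scale {f : ℕ → ℕ} {T : ℕ} (hf : FewTimes f T) {θ B : ℝ} (hθ : θ < 1) (hB : 0 ≤ B) (C₀ : ℝ) (A : ℕ) :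
    ∃ N₀ : ℕ, ∀ N : ℕ, N₀ ≤ N → ∀ W : Set ℕ,
      (((Icc 1 ⌊(N : ℝ) ^ B⌋₊).filter (fun w => w ∈ W)).card : ℝ) ≤ C₀ * (N : ℝ) ^ θ →
      (((Icc 1 N).filter (fun m => ∃ w ∈ W, 1 ≤ w ∧ (w : ℝ) ≤ (N : ℝ) ^ B ∧
        Carries f (Real.exp √(Real.log N)) m w)).card : ℝ) ≤ N / Real.log N ^ A := by
  obtain ⟨CR, hCR0, hCR⟩ := few_large'
  obtain ⟨c0, hc0⟩ : ∃ c0 : ℝ, c0 = max C₀ 1 := ⟨_, rfl⟩
  have hc01 : 1 ≤ c0 := by rw [hc0]; exact le_max_right _ _
  have hcC : C₀ ≤ c0 := by rw [hc0]; exact le_max_left _ _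
  obtain ⟨δ, hδ⟩ : ∃ δ : ℝ, δ = min (1 - θ) 1 := ⟨_, rfl⟩
  have hδ0 : 0 < δ := by rw [hδ]; exact lt_min (by linarith) one_pos
  have hδ1 : δ ≤ 1 := by rw [hδ]; exact min_le_right _ _
  have hδθ : θ ≤ 1 - δ := by
    have : δ ≤ 1 - θ := by rw [hδ]; exact min_le_left _ _
    linarith
  obtain ⟨q, hq⟩ := exists_nat_gt (16 * (B + 1) / δ)
  have hqB : 16 * (B + 1) ≤ q * δ := by
    rw [div_lt_iff₀ hδ0] at hq
    exact hq.le
  have hq1 : 1 ≤ q := by
    have h1 : 0 < 16 * (B + 1) / δ := by positivity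
    have : (0 : ℝ) < q := h1.trans hq
    exact_mod_cast this
  have hqr : (1 : ℝ) ≤ q := by exact_mod_cast hq1
  have hA0 : (0 : ℝ) ≤ A := Nat.cast_nonneg _
  have hT0 : (0 : ℝ) ≤ T := Nat.cast_nonneg _
  obtain ⟨η, hη⟩ : ∃ η : ℝ, η = δ / 4 := ⟨_, rfl⟩
  have hη0 : 0 < η := by rw [hη]; positivity
  obtain ⟨C', hC'⟩ : ∃ C' : ℝ, C' = 4 * q * (A + 2) / η := ⟨_, rfl⟩
  have hC'0 : 0 < C' := by rw [hC']; positivity
  obtain ⟨K₁, hK₁⟩ : ∃ K₁ : ℝ, K₁ = Real.exp (4 * Real.exp C' * (C' + CR)) := ⟨_, rfl⟩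
  have hK₁0 : 0 < K₁ := by rw [hK₁]; positivity
  obtain ⟨ε, hε⟩ : ∃ ε : ℝ, ε = δ / (16 * (T + 1) * (A + 1)) := ⟨_, rfl⟩
  have hε0 : 0 < ε := by rw [hε]; positivity
  have hεeq : ε * (16 * (T + 1) * (A + 1)) = δ := by
    rw [hε]
    field_simp
  have hεT : ε * (T + 1) ≤ δ / 16 := by
    have h1 : ε * (T + 1) * 16 ≤ ε * (16 * (T + 1) * (A + 1)) := by
      rw [mul_assoc]
      apply mul_le_mul_of_nonneg_left _ hε0.le
      have : (0 : ℝ) ≤ (T + 1) * A := by positivity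
      nlinarith
    linarith
  have hεA : ε * (A + 1) ≤ δ / 16 := by
    have h1 : ε * (A + 1) * 16 ≤ ε * (16 * (T + 1) * (A + 1)) := by
      rw [mul_assoc]
      apply mul_le_mul_of_nonneg_left _ hε0.le
      have : (0 : ℝ) ≤ T * (A + 1) := by positivity
      nlinarith
    linarith
  have hε1 : ε ≤ 1 := by
    have h1 : ε * 1 ≤ ε * (T + 1) := mul_le_mul_of_nonneg_left (by linarith) hε0.le
    linarith
  obtain ⟨R, hR⟩ : ∃ R : ℝ, R = 16 + 4 * C' + 4 * CR * K₁ + c0 + 8 / δ + B := ⟨_, rfl⟩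
  obtain ⟨N₀, hN₀⟩ := basic ε R hε0
  refine ⟨N₀, fun N hN W hW => ?_⟩
  obtain ⟨hN3, k1, k2, k3⟩ := hN₀ N hN
  have hN0 : (0 : ℝ) < N := by exact_mod_cast (by omega : 0 < N)
  have hN1 : (1 : ℝ) ≤ N := by exact_mod_cast (by omega : 1 ≤ N)
  obtain ⟨L, hL⟩ : ∃ L, L = Real.log N := ⟨_, rfl⟩
  rw [← hL] at k1 k2 k3 ⊢
  obtain ⟨r, hr⟩ : ∃ r, r = √L := ⟨_, rfl⟩
  obtain ⟨l, hl⟩ : ∃ l, l = Real.log L := ⟨_, rfl⟩
  rw [← hr] at k1 k2 ⊢
  rw [← hl] at k1 k3
  have p2 : 0 ≤ 4 * CR * K₁ := by positivity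
  have p4 : 0 ≤ 8 / δ := by positivity
  have r1 : 16 ≤ r := by linarith
  have r3 : 4 * C' ≤ r := by linarith
  have r4 : 4 * CR * K₁ ≤ r := by linarith
  have r5 : c0 ≤ r := by linarith
  have r6 : 8 / δ ≤ r := by linarith
  have r7 : B + 1 ≤ r := by linarith
  have l1 : 16 ≤ l := by linarith
  have hr0 : 0 < r := by linarith
  have hL0 : 0 < L := by
    rw [hr] at hr0
    exact Real.sqrt_pos.1 hr0
  have hrr : r * r = L := by rw [hr]; exact Real.mul_self_sqrt hL0.le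
  have hrL : r ≤ L := by
    rw [← hrr]
    exact le_mul_of_one_le_left hr0.le (by linarith)
  have hexpl : Real.exp l = L := by rw [hl]; exact Real.exp_log hL0
  have hexpL : Real.exp L = N := by rw [hL]; exact Real.exp_log hN0
  have hexpr : Real.exp (l / 2) = r := by
    have h1 : Real.exp (l / 2) * Real.exp (l / 2) = r * r := by
      rw [← Real.exp_add, hrr, ← hexpl]
      congr 1
      ring
    have h2 : 0 < Real.exp (l / 2) := Real.exp_pos _
    exact (mul_self_inj h2.le hr0.le).1 h1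
  -- J
  obtain ⟨J, hJ⟩ : ∃ J : ℕ, J = ⌊l / (4 * q)⌋₊ := ⟨_, rfl⟩
  have hJ1 : (J : ℝ) ≤ l / (4 * q) := by rw [hJ]; exact Nat.floor_le (by positivity)
  have hJ2 : l / (4 * q) < J + 1 := by rw [hJ]; exact Nat.lt_floor_add_one _
  have hJ0 : (0 : ℝ) ≤ J := Nat.cast_nonneg _
  have hJ4 : (J : ℝ) ≤ l / 4 := by
    refine hJ1.trans ?_
    apply div_le_div_of_nonneg_left (by linarith) (by norm_num)
    linarith
  have hJr : (J : ℝ) + 1 ≤ ε * r := by linarith
  -- w and z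
  obtain ⟨w, hw⟩ : ∃ w : ℝ, w = L / (J + 1) := ⟨_, rfl⟩
  have hJ1p : (0 : ℝ) < (J : ℝ) + 1 := by linarith
  have hwJ : w * (J + 1) = L := by rw [hw]; field_simp
  have hw0 : 0 < w := by rw [hw]; positivity
  have hwr : r ≤ ε * w := by
    have h1 : r * (J + 1) ≤ ε * w * (J + 1) := by
      have e1 : r * (J + 1) ≤ r * (ε * r) := mul_le_mul_of_nonneg_left hJr hr0.le
      have e2 : ε * w * (J + 1) = ε * L := by rw [mul_assoc, hwJ]
      rw [e2, ← hrr]
      linarith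
    exact le_of_mul_le_mul_right h1 hJ1p
  have hwr2 : 2 * r ≤ w := by
    have h1 : ε * w ≤ 1 / 16 * w := by
      apply mul_le_mul_of_nonneg_right _ hw0.le
      have h2 : ε * 1 ≤ ε * (T + 1) := mul_le_mul_of_nonneg_left (by linarith) hε0.le
      linarith
    linarith
  have hwr1 : r ≤ w := by linarith
  have hwL : w ≤ L := by
    rw [← hwJ]
    exact le_mul_of_one_le_right hw0.le (by linarith)
  obtain ⟨z, hz⟩ : ∃ z : ℕ, z = ⌊Real.exp w⌋₊ := ⟨_, rfl⟩
  have hz1 : (z : ℝ) ≤ Real.exp w := by rw [hz]; exact Nat.floor_le (Real.exp_pos _).le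
  have hz2 : Real.exp w < z + 1 := by rw [hz]; exact Nat.lt_floor_add_one _
  have hzw : w ≤ z := by
    have := Real.add_one_le_exp w
    linarith
  have hz2' : 2 ≤ z := by
    have : ((2 : ℕ) : ℝ) ≤ z := by push_cast; linarith
    exact_mod_cast this
  have hz0 : (0 : ℝ) < z := by linarith
  have hzr : Real.exp r ≤ z := by
    have h1 : Real.exp r + 1 ≤ Real.exp w := by
      have e1 : Real.exp (2 * r) ≤ Real.exp w := Real.exp_le_exp.2 hwr2
      have e2 : Real.exp (2 * r) = Real.exp r * Real.exp r := by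
        rw [← Real.exp_add]
        congr 1
        ring
      have e3 := Real.add_one_le_exp r
      have e4 : 2 * Real.exp r ≤ Real.exp r * Real.exp r :=
        mul_le_mul_of_nonneg_right (by linarith) (Real.exp_pos _).le
      linarith
    linarith
  have hzN : N < (z + 1) ^ (J + 1) := by
    have h2 : (N : ℝ) < (((z + 1) ^ (J + 1) : ℕ) : ℝ) := by
      calc (N : ℝ) = (Real.exp w) ^ (J + 1) := by
            rw [← Real.exp_nat_mul, ← hexpL]
            congr 1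
            push_cast
            linarith
        _ < ((z : ℝ) + 1) ^ (J + 1) := pow_lt_pow_left₀ hz2 (Real.exp_pos _).le (by omega)
        _ = _ := by push_cast; ring
    exact_mod_cast h2
  have hlz : Real.log z ≤ w := by
    have := Real.log_le_log hz0 hz1
    rwa [Real.log_exp] at this
  have hlz0 : 0 ≤ Real.log z := Real.log_nonneg (by linarith)
  -- Y and K
  obtain ⟨Y, hY⟩ : ∃ Y : ℝ, Y = Real.exp (η * L) := ⟨_, rfl⟩
  have hY0 : 0 < Y := by rw [hY]; exact Real.exp_pos _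
  obtain ⟨K, hK⟩ : ∃ K : ℕ, K = ⌊Y⌋₊ := ⟨_, rfl⟩
  have hKY : (K : ℝ) ≤ Y := by rw [hK]; exact Nat.floor_le hY0.le
  have hLA : L ^ A = Real.exp (A * l) := by
    rw [Real.exp_nat_mul, hexpl]
  -- X
  obtain ⟨X, hX⟩ : ∃ X : ℕ, X = ⌊(N : ℝ) ^ B⌋₊ := ⟨_, rfl⟩
  have hNB1 : (1 : ℝ) ≤ (N : ℝ) ^ B := Real.one_le_rpow hN1 hB
  have hX1 : 1 ≤ X := by
    rw [hX]
    exact Nat.le_floor (by rw [Nat.cast_one]; exact hNB1)
  have hXle : (X : ℝ) ≤ (N : ℝ) ^ B := by rw [hX]; exact Nat.floor_le (by linarith)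
  have hlogX : Real.log X ≤ B * L := by
    have h1 : (0 : ℝ) < X := by exact_mod_cast (by omega : 0 < X)
    have := Real.log_le_log h1 hXle
    rwa [Real.log_rpow hN0, ← hL] at this
  -- the parts
  obtain ⟨S1, hS1⟩ : ∃ S, S = (Icc 1 N).filter (fun m => Y < (sp z m : ℝ)) := ⟨_, rfl⟩
  obtain ⟨S2, hS2⟩ : ∃ S, S = (Icc 1 N).filter (fun m => ∃ p : ℕ, p.Prime ∧ z < p ∧ p ^ 2 ∣ m) := ⟨_, rfl⟩
  obtain ⟨V, hV⟩ : ∃ V, V = (Icc 1 X).filter (fun w => w ∈ W) := ⟨_, rfl⟩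
  obtain ⟨Q, hQ⟩ : ∃ Q : ℕ → Finset ℕ, Q = fun w' => (Icc 1 N).filter (fun u => Squarefree u ∧ Rough z u ∧
    ∀ p ∈ u.primeFactors, f p ∣ w') := ⟨_, rfl⟩
  obtain ⟨S4, hS4⟩ : ∃ S, S = (Icc 1 K).biUnion (fun k => (V.biUnion Q).image (fun u => k * u)) := ⟨_, rfl⟩
  have hcov : (Icc 1 N).filter (fun m => ∃ w ∈ W, 1 ≤ w ∧ (w : ℝ) ≤ (N : ℝ) ^ B ∧ Carries f (Real.exp r) m w) ⊆
      (S1 ∪ S2) ∪ S4 := by
    intro m hm
    rw [mem_filter, mem_Icc] at hm
    obtain ⟨⟨hm1, hmN⟩, w', hw'W, hw'1, hw'N, hcar⟩ := hm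
    rw [mem_union, mem_union]
    by_cases h1 : Y < (sp z m : ℝ)
    · left; left
      rw [hS1, mem_filter, mem_Icc]
      exact ⟨⟨hm1, hmN⟩, h1⟩
    by_cases h2 : ∃ p : ℕ, p.Prime ∧ z < p ∧ p ^ 2 ∣ m
    · left; right
      rw [hS2, mem_filter, mem_Icc]
      exact ⟨⟨hm1, hmN⟩, h2⟩
    have hmul := sp_mul_rp z m (by omega)
    have hk1 := sp_pos z m
    have hu1 := rp_pos z m
    have hkK : sp z m ≤ K := by
      rw [hK]
      exact Nat.le_floor (not_lt.1 h1)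
    right
    have hrough : Rough z (rp z m) := fun p hp hd => lt_of_dvd_rp hp hd
    have hdm : rp z m ∣ m := ⟨sp z m, by rw [mul_comm]; exact hmul.symm⟩
    have hsq : Squarefree (rp z m) := by
      rw [Nat.squarefree_iff_prime_squarefree]
      intro p hp hd
      apply h2
      refine ⟨p, hp, hrough p hp ((dvd_mul_right p p).trans hd), ?_⟩
      rw [pow_two]
      exact hd.trans hdm
    rw [hS4, mem_biUnion]
    refine ⟨sp z m, by rw [mem_Icc]; exact ⟨hk1, hkK⟩, ?_⟩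
    rw [mem_image]
    refine ⟨rp z m, ?_, hmul⟩
    rw [mem_biUnion]
    refine ⟨w', ?_, ?_⟩
    · rw [hV, mem_filter, mem_Icc]
      refine ⟨⟨hw'1, ?_⟩, hw'W⟩
      rw [hX]
      exact Nat.le_floor hw'N
    · rw [hQ, mem_filter, mem_Icc]
      refine ⟨⟨hu1, (Nat.le_of_dvd (by omega) hdm).trans hmN⟩, hsq, hrough, ?_⟩
      intro p hp
      have hpp := Nat.prime_of_mem_primeFactors hp
      have hpd := Nat.dvd_of_mem_primeFactors hp
      have hzp := hrough p hpp hpd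
      refine hcar p hpp ?_ (hpd.trans hdm) ?_
      · have : (z : ℝ) < p := by exact_mod_cast hzp
        linarith
      · intro hsqd
        exact h2 ⟨p, hpp, hzp, hsqd⟩
  -- S1
  have q1 : (S1.card : ℝ) ≤ N / (4 * L ^ A) := by
    obtain ⟨β, hβ⟩ : ∃ β : ℝ, β = C' * (J + 1) / L := ⟨_, rfl⟩
    have hβw : β * w = C' := by
      rw [hβ, hw]
      field_simp
    have hβL : β * L = C' * (J + 1) := by
      rw [hβ]
      field_simp
    have hβ0 : 0 ≤ β := by rw [hβ]; positivity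
    have hβ1 : β ≤ 1 / 4 := by
      have h1 : β * w ≤ 1 / 4 * w := by rw [hβw]; linarith
      exact le_of_mul_le_mul_right h1 hw0
    have h1 := hCR β z N Y hβ0 hβ1 hz2' hY0
    rw [hS1]
    refine h1.trans ?_
    have h3 : (z : ℝ) ^ β ≤ Real.exp C' := by
      calc (z : ℝ) ^ β ≤ (Real.exp w) ^ β := Real.rpow_le_rpow hz0.le hz1 hβ0
        _ = Real.exp C' := by
          rw [← Real.exp_mul, mul_comm, hβw]
    exact s1_numq (q := q) (by linarith) hCR0 hC'0 hη0 hC' hK₁ hN0 hL0 hexpl (by linarith) hY hβw hβL hβ0 hβ1 hJ2 hlz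
      hlz0 hwL h3 (by positivity) (by linarith)
  -- S2
  have q2 : (S2.card : ℝ) ≤ N / (4 * L ^ A) := by
    rw [hS2]
    refine (few_square N z (by omega)).trans ?_
    apply div_le_div_of_nonneg_left hN0.le (by positivity)
    have h1 : 8 * L ^ A ≤ Real.exp w := by
      have e1 : (8 : ℝ) ≤ Real.exp 8 := by
        have := Real.add_one_le_exp (8 : ℝ)
        linarith
      have e2 : 8 * L ^ A ≤ Real.exp (8 + A * l) := by
        rw [Real.exp_add, ← hLA]
        exact mul_le_mul_of_nonneg_right e1 (by positivity)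
      refine e2.trans (Real.exp_le_exp.2 ?_)
      have e3 : A * l ≤ (A + 1) * (ε * r) := by
        have a1 : A * l ≤ A * (ε * r) := mul_le_mul_of_nonneg_left k1 hA0
        have a2 : 0 ≤ ε * r := by positivity
        linarith
      have e4 : (A + 1) * (ε * r) ≤ r / 16 := by
        have : (A + 1) * (ε * r) = (ε * (A + 1)) * r := by ring
        rw [this]
        have h9 : (ε * (A + 1)) * r ≤ δ / 16 * r := mul_le_mul_of_nonneg_right hεA hr0.le
        have h8 : δ * r ≤ 1 * r := mul_le_mul_of_nonneg_right hδ1 hr0.le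
        linarith
      linarith
    linarith
  -- S4
  have q4 : (S4.card : ℝ) ≤ N / (2 * L ^ A) := by
    have hQc : ∀ w' ∈ V, ((Q w').card : ℝ) ≤ Real.exp (3 * δ / 16 * L) := by
      intro w' hw'
      rw [hV, mem_filter, mem_Icc] at hw'
      have h1 := fibre hf (J := J) (w := w') hw'.1.1 (Q w')
        (fun u hu => by rw [hQ, mem_filter] at hu; exact hu.2.1)
        (fun u hu => by
          rw [hQ, mem_filter, mem_Icc] at hu
          exact omega_le hzN hu.2.2.1 hu.1.1 hu.1.2)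
        (fun u hu => by rw [hQ, mem_filter] at hu; exact hu.2.2.2)
      have h2 := pow_num (B := B) (L := L) (l := l) (r := r) (ε := ε) (δ := δ) (T := T) (J := J) (q := q) (X := X)
        (w := w') hq1 hB hδ0 hqB hX1 hlogX (by linarith) hrr r1 hexpl (by linarith) k1 hε0.le hε1 hεT hexpr hJ1
        hw'.1.1 hw'.1.2
      refine le_trans ?_ h2
      exact_mod_cast h1
    have hVc : (V.card : ℝ) ≤ c0 * (N : ℝ) ^ θ := by
      rw [hV, hX]
      exact hW.trans (mul_le_mul_of_nonneg_right hcC (by positivity))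
    have hVQ : ((V.biUnion Q).card : ℝ) ≤ c0 * (N : ℝ) ^ θ * Real.exp (3 * δ / 16 * L) := by
      have h0 : ((V.biUnion Q).card : ℝ) ≤ ∑ w' ∈ V, ((Q w').card : ℝ) := by exact_mod_cast card_biUnion_le
      refine h0.trans ((sum_le_sum hQc).trans ?_)
      rw [sum_const, nsmul_eq_mul]
      exact mul_le_mul_of_nonneg_right hVc (Real.exp_pos _).le
    have h1 : (S4.card : ℝ) ≤ K * ((V.biUnion Q).card : ℝ) := by
      have h0 : S4.card ≤ ∑ k ∈ Icc 1 K, (V.biUnion Q).card := by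
        rw [hS4]
        exact card_biUnion_le.trans (sum_le_sum (fun k _ => card_image_le))
      rw [sum_const, smul_eq_mul, Nat.card_Icc, Nat.add_sub_cancel] at h0
      exact_mod_cast h0
    have hNθ : (N : ℝ) ^ θ ≤ Real.exp ((1 - δ) * L) := by
      calc (N : ℝ) ^ θ ≤ (N : ℝ) ^ (1 - δ) := Real.rpow_le_rpow_of_exponent_le hN1 hδθ
        _ = Real.exp ((1 - δ) * L) := by
          rw [← hexpL, ← Real.exp_mul]
          congr 1
          ring
    have hcl : c0 ≤ Real.exp l := by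
      rw [hexpl]
      linarith
    have h6 : (S4.card : ℝ) ≤ Real.exp (l + (1 - δ / 2) * L) := by
      calc (S4.card : ℝ) ≤ K * ((V.biUnion Q).card : ℝ) := h1
        _ ≤ Y * (Real.exp l * Real.exp ((1 - δ) * L) * Real.exp (3 * δ / 16 * L)) := by
          apply mul_le_mul hKY _ (Nat.cast_nonneg _) hY0.le
          refine hVQ.trans ?_
          apply mul_le_mul_of_nonneg_right _ (Real.exp_pos _).le
          exact mul_le_mul hcl hNθ (by positivity) (Real.exp_pos _).le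
        _ = Real.exp (l + (1 - 9 * δ / 16) * L) := by
          rw [hY, ← Real.exp_add, ← Real.exp_add, ← Real.exp_add, hη]
          congr 1
          ring
        _ ≤ Real.exp (l + (1 - δ / 2) * L) := by
          apply Real.exp_le_exp.2
          have : 0 ≤ δ * L := by positivity
          linarith
    refine h6.trans ?_
    rw [le_div_iff₀ (by positivity)]
    have h7 : 2 * L ^ A * Real.exp l ≤ Real.exp (δ / 2 * L) := by
      have e1 : (2 : ℝ) ≤ Real.exp 1 := by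
        have := Real.exp_one_gt_d9
        linarith
      have e2 : 2 * L ^ A * Real.exp l ≤ Real.exp (1 + A * l + l) := by
        rw [Real.exp_add, Real.exp_add, ← hLA]
        apply mul_le_mul_of_nonneg_right _ (Real.exp_pos _).le
        exact mul_le_mul_of_nonneg_right e1 (by positivity)
      refine e2.trans (Real.exp_le_exp.2 ?_)
      have e3 : (A + 1) * l ≤ (A + 1) * (ε * r) := mul_le_mul_of_nonneg_left k1 (by positivity)
      have e4 : (A + 1) * (ε * r) ≤ δ / 16 * L := by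
        calc (A + 1) * (ε * r) = (ε * (A + 1)) * r := by ring
          _ ≤ δ / 16 * r := mul_le_mul_of_nonneg_right hεA hr0.le
          _ ≤ δ / 16 * L := mul_le_mul_of_nonneg_left hrL (by positivity)
      have e5 : 1 ≤ δ / 8 * L := by
        have : 8 / δ ≤ L := by linarith
        rw [div_le_iff₀ hδ0] at this
        linarith
      have e6 : 0 ≤ δ * L := by positivity
      linarith
    calc Real.exp (l + (1 - δ / 2) * L) * (2 * L ^ A)
        = (2 * L ^ A * Real.exp l) * Real.exp ((1 - δ / 2) * L) := by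
          rw [Real.exp_add]
          ring
      _ ≤ Real.exp (δ / 2 * L) * Real.exp ((1 - δ / 2) * L) := mul_le_mul_of_nonneg_right h7 (Real.exp_pos _).le
      _ = N := by
        rw [← Real.exp_add, ← hexpL]
        congr 1
        ring
  have hsum : (((Icc 1 N).filter (fun m => ∃ w ∈ W, 1 ≤ w ∧ (w : ℝ) ≤ (N : ℝ) ^ B ∧
      Carries f (Real.exp r) m w)).card : ℝ) ≤ (S1.card + S2.card + S4.card : ℝ) := by
    have h1 := (card_le_card hcov).trans ((card_union_le _ _).trans (Nat.add_le_add_right (card_union_le _ _) _))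
    exact_mod_cast h1
  refine hsum.trans ?_
  have e1 : (N : ℝ) / L ^ A = N / (4 * L ^ A) + N / (4 * L ^ A) + N / (2 * L ^ A) := by
    field_simp
    norm_num
  rw [e1]
  linarith

/-- **All scales.** -/
theorem avoid {f : ℕ → ℕ} {T : ℕ} (hf : FewTimes f T) {θ B : ℝ} (hθ0 : 0 ≤ θ) (hB : 0 ≤ B) (h1 : B * θ < 1) (C₀ : ℝ)
    (A : ℕ) : ∃ N₀ : ℕ, ∀ W : Set ℕ,
      (∀ X : ℕ, 1 ≤ X → (((Icc 1 X).filter (fun w => w ∈ W)).card : ℝ) ≤ C₀ * (X : ℝ) ^ θ) → ∀ N : ℕ, N₀ ≤ N →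
      (((Icc 1 N).filter (fun m => ∃ w ∈ W, 1 ≤ w ∧ (w : ℝ) ≤ (N : ℝ) ^ B ∧
        Carries f (Real.exp √(Real.log N)) m w)).card : ℝ) ≤ N / Real.log N ^ A := by
  obtain ⟨N₀, hN₀⟩ := scale hf h1 hB C₀ A
  refine ⟨max N₀ 1, fun W hW N hN => ?_⟩
  have hN1 : (1 : ℝ) ≤ N := by exact_mod_cast (le_max_right N₀ 1).trans hN
  have hC0 : 0 ≤ C₀ := by
    have := hW 1 le_rfl
    rw [Nat.cast_one, Real.one_rpow, mul_one] at this
    exact le_trans (Nat.cast_nonneg _) this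
  have hNB1 : (1 : ℝ) ≤ (N : ℝ) ^ B := Real.one_le_rpow hN1 hB
  have hX1 : 1 ≤ ⌊(N : ℝ) ^ B⌋₊ := Nat.le_floor (by rw [Nat.cast_one]; exact hNB1)
  refine hN₀ N ((le_max_left _ _).trans hN) W ((hW _ hX1).trans (mul_le_mul_of_nonneg_left ?_ hC0))
  calc ((⌊(N : ℝ) ^ B⌋₊ : ℕ) : ℝ) ^ θ ≤ ((N : ℝ) ^ B) ^ θ :=
        Real.rpow_le_rpow (Nat.cast_nonneg _) (Nat.floor_le (by linarith)) hθ0
    _ = (N : ℝ) ^ (B * θ) := by rw [← Real.rpow_mul (by linarith)]

end Pool.Agent.N790.CM
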