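import Mathlib
import Pool.Agent.N733.TG.K
import Pool.Agent.N790.CM.B

set_option autoImplicit false

/-! Common multiples of the values `f p`, `p ∣ m`, for almost all `m`: forms for applications (helper790). -/

namespace Pool.Agent.N790.CM

open Finset Classical
open Pool.Agent.N733.TG (Expanding NearG nearG_count)

/-- **`Q w` holds at the common multiples `w ≤ N^B` for almost all `m`.** For every `f` which takes each positive value at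
boundedly many primes and all `m ≤ N` but `N / (log N)^A`: `Q w` holds for EVERY `w` with `1 ≤ w ≤ N^B` which is divisible
by `f p` for all primes `p > exp (√(log N))` dividing `m` exactly once. -/
def OnMultiples (B : ℝ) (Q : ℕ → Prop) : Prop :=
  ∀ (f : ℕ → ℕ) (T : ℕ), FewTimes f T → ∀ A : ℕ, ∃ N₀ : ℕ, ∀ N : ℕ, N₀ ≤ N →
    ({m : ℕ | 1 ≤ m ∧ m ≤ N ∧ ¬ ∀ w : ℕ, 1 ≤ w → (w : ℝ) ≤ (N : ℝ) ^ B →
      Carries f (Real.exp √(Real.log N)) m w → Q w}.ncard : ℝ) ≤ N / Real.log N ^ A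

/-- **`Q w` holds at the multiples `w ≤ N^B` of Carmichael's function of almost all `m ≤ N`**, all but
`N / (log N)^A`. -/
def OnCarmichael (B : ℝ) (Q : ℕ → Prop) : Prop :=
  ∀ A : ℕ, ∃ N₀ : ℕ, ∀ N : ℕ, N₀ ≤ N →
    ({m : ℕ | 1 ≤ m ∧ m ≤ N ∧ ¬ ∀ w : ℕ, 1 ≤ w → (w : ℝ) ≤ (N : ℝ) ^ B →
      ArithmeticFunction.carmichael m ∣ w → Q w}.ncard : ℝ) ≤ N / Real.log N ^ A

lemma finite_aux (N : ℕ) (P : ℕ → Prop) : {m : ℕ | 1 ≤ m ∧ m ≤ N ∧ P m}.Finite :=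
  (Set.finite_Icc 1 N).subset (fun _ hm => ⟨hm.1, hm.2.1⟩)

theorem OnMultiples.mono {B : ℝ} {Q Q' : ℕ → Prop} (h : OnMultiples B Q) (hQ : ∀ w : ℕ, 1 ≤ w → Q w → Q' w) :
    OnMultiples B Q' := by
  intro f T hf A
  obtain ⟨N₀, hN₀⟩ := h f T hf A
  refine ⟨N₀, fun N hN => le_trans ?_ (hN₀ N hN)⟩
  have h1 : {m : ℕ | 1 ≤ m ∧ m ≤ N ∧ ¬ ∀ w : ℕ, 1 ≤ w → (w : ℝ) ≤ (N : ℝ) ^ B →
      Carries f (Real.exp √(Real.log N)) m w → Q' w} ⊆
      {m : ℕ | 1 ≤ m ∧ m ≤ N ∧ ¬ ∀ w : ℕ, 1 ≤ w → (w : ℝ) ≤ (N : ℝ) ^ B →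
      Carries f (Real.exp √(Real.log N)) m w → Q w} := by
    rintro m ⟨h1, h2, h3⟩
    exact ⟨h1, h2, fun h4 => h3 (fun w hw hwN hc => hQ w hw (h4 w hw hwN hc))⟩
  exact_mod_cast Set.ncard_le_ncard h1 (finite_aux _ _)

/-- `p - 1` takes every positive value at most once -/
lemma fewTimes_pred : FewTimes (fun p => p - 1) 1 := by
  intro v F hv hF
  rw [card_le_one]
  intro a ha b hb
  have h1 : a - 1 = v := (hF a ha).2
  have h2 : b - 1 = v := (hF b hb).2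
  omega

lemma pred_dvd_carmichael {p m : ℕ} (hp : p.Prime) (hd : p ∣ m) : (p - 1) ∣ ArithmeticFunction.carmichael m := by
  have h1 := ArithmeticFunction.carmichael_dvd hd
  have : Fact p.Prime := ⟨hp⟩
  rw [ArithmeticFunction.carmichael_eq_exponent hp.ne_zero, IsCyclic.exponent_eq_card, Nat.card_eq_fintype_card,
    ZMod.card_units] at h1
  exact h1

/-- the multiples of Carmichael's function -/
theorem OnMultiples.carmichael {B : ℝ} {Q : ℕ → Prop} (h : OnMultiples B Q) : OnCarmichael B Q := by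
  intro A
  obtain ⟨N₀, hN₀⟩ := h _ 1 fewTimes_pred A
  refine ⟨N₀, fun N hN => le_trans ?_ (hN₀ N hN)⟩
  have h1 : {m : ℕ | 1 ≤ m ∧ m ≤ N ∧ ¬ ∀ w : ℕ, 1 ≤ w → (w : ℝ) ≤ (N : ℝ) ^ B →
      ArithmeticFunction.carmichael m ∣ w → Q w} ⊆
      {m : ℕ | 1 ≤ m ∧ m ≤ N ∧ ¬ ∀ w : ℕ, 1 ≤ w → (w : ℝ) ≤ (N : ℝ) ^ B →
      Carries (fun p => p - 1) (Real.exp √(Real.log N)) m w → Q w} := by
    rintro m ⟨h1, h2, h3⟩
    refine ⟨h1, h2, fun h4 => h3 (fun w hw hwN hc => h4 w hw hwN ?_)⟩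
    intro p hp _ hpm _
    exact (pred_dvd_carmichael hp hpm).trans hc
  exact_mod_cast Set.ncard_le_ncard h1 (finite_aux _ _)

/-- a nonconstant integer polynomial takes every value `± v` at most `2 deg` times -/
lemma fewTimes_poly (P : Polynomial ℤ) (hP : 1 ≤ P.natDegree) :
    FewTimes (fun p => (P.eval (p : ℤ)).natAbs) (2 * P.natDegree) := by
  intro v F hv hF
  have h0 : ∀ c : ℤ, P - Polynomial.C c ≠ 0 := by
    intro c h
    have h1 : P.natDegree = 0 := by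
      rw [sub_eq_zero.1 h, Polynomial.natDegree_C]
    omega
  have hdeg : ∀ c : ℤ, ((P - Polynomial.C c).roots.toFinset).card ≤ P.natDegree := by
    intro c
    refine (Multiset.toFinset_card_le _).trans ((Polynomial.card_roots' _).trans ?_)
    rw [Polynomial.natDegree_sub_C]
  have hsub : F.image (fun p : ℕ => (p : ℤ)) ⊆ (P - Polynomial.C (v : ℤ)).roots.toFinset ∪
      (P - Polynomial.C (-(v : ℤ))).roots.toFinset := by
    intro x hx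
    rw [mem_image] at hx
    obtain ⟨p, hp, rfl⟩ := hx
    have h2 : (P.eval (p : ℤ)).natAbs = v := (hF p hp).2
    rw [mem_union, Multiset.mem_toFinset, Multiset.mem_toFinset, Polynomial.mem_roots (h0 _), Polynomial.mem_roots (h0 _),
      Polynomial.IsRoot.def, Polynomial.IsRoot.def, Polynomial.eval_sub, Polynomial.eval_sub, Polynomial.eval_C,
      Polynomial.eval_C]
    rcases Int.natAbs_eq (P.eval (p : ℤ)) with h3 | h3
    · left
      rw [h3, h2]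
      ring
    · right
      rw [h3, h2]
      ring
  have h3 : (F.image (fun p : ℕ => (p : ℤ))).card = F.card :=
    card_image_of_injective _ (fun a b h => by exact_mod_cast h)
  rw [← h3]
  refine (card_le_card hsub).trans ((card_union_le _ _).trans ?_)
  have := hdeg v
  have := hdeg (-(v : ℤ))
  omega

/-- sets of natural numbers with a power saving -/
theorem keep_out {θ B : ℝ} (hθ0 : 0 ≤ θ) (hB : 0 ≤ B) (h1 : B * θ < 1) (C₀ : ℝ) (W : Set ℕ)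
    (hW : ∀ X : ℕ, 1 ≤ X → (((Icc 1 X).filter (fun w => w ∈ W)).card : ℝ) ≤ C₀ * (X : ℝ) ^ θ) :
    OnMultiples B (fun w => w ∉ W) := by
  intro f T hf A
  obtain ⟨N₀, hN₀⟩ := avoid hf hθ0 hB h1 C₀ A
  refine ⟨N₀, fun N hN => le_trans (le_of_eq ?_) (hN₀ W hW N hN)⟩
  congr 1
  rw [← Set.ncard_coe_finset]
  congr 1
  ext m
  simp only [coe_filter, mem_Icc, Set.mem_ofPred_eq]
  constructor
  · rintro ⟨h1, h2, h3⟩
    push Not at h3
    obtain ⟨w, a1, a2, a3, a4⟩ := h3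
    exact ⟨⟨h1, h2⟩, w, a4, a1, a2, a3⟩
  · rintro ⟨⟨h1, h2⟩, w, a4, a1, a2, a3⟩
    exact ⟨h1, h2, fun h => h w a1 a2 a3 a4⟩

/-- **Main tool.** If `S` has `O_ε (X ^ (s + ε))` elements of height at most `X`, and `G` is expanding of growth `d`,
`B ≥ 1` and `B (d s + κ) < 1`: for almost all `m` no element of `S` has a height within `w^κ` of `G w` for ANY common
multiple `w ≤ N^B`. -/
theorem keep_windows {T : Type*} (S : Set T) (h : T → ℝ) {G : ℕ → ℝ} {d : ℝ}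
    (hG : Expanding G d) {s κ B : ℝ} (hs : 0 ≤ s) (hκ : 0 ≤ κ) (hB : 1 ≤ B) (h1 : B * (d * s + κ) < 1)
    (hS : ∀ ε : ℝ, 0 < ε → ∃ C : ℝ, ∀ X : ℝ, 1 ≤ X →
      {t | t ∈ S ∧ h t ≤ X}.Finite ∧ ({t | t ∈ S ∧ h t ≤ X}.ncard : ℝ) ≤ C * X ^ (s + ε)) :
    OnMultiples B (fun w => ∀ t ∈ S, ¬ |h t - G w| ≤ (w : ℝ) ^ κ) := by
  have hd := hG.one_le
  have hds : 0 ≤ d * s := by positivity
  have hdk : d * s + κ ≤ B * (d * s + κ) := by
    have : 1 * (d * s + κ) ≤ B * (d * s + κ) := mul_le_mul_of_nonneg_right hB (by linarith)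
    linarith
  obtain ⟨ε, hε⟩ : ∃ ε, ε = (1 - B * (d * s + κ)) / (2 * (B * d)) := ⟨_, rfl⟩
  have hBd : 0 < B * d := by positivity
  have hε0 : 0 < ε := by
    rw [hε]
    apply div_pos (by linarith) (by linarith)
  have hεd : B * d * ε = (1 - B * (d * s + κ)) / 2 := by
    rw [hε]
    field_simp
  obtain ⟨K, hK⟩ := nearG_count S h hG (s := s + ε) (κ := κ) (by linarith) hκ (by linarith) (hS ε hε0)
  have h2 : B * (d * (s + ε) + κ) < 1 := by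
    have : B * (d * (s + ε) + κ) = B * (d * s + κ) + B * d * ε := by ring
    rw [this, hεd]
    linarith
  refine (keep_out (θ := d * (s + ε) + κ) (by positivity) (by linarith) h2 K (NearG S h G κ) hK).mono ?_
  intro w _ hw t ht hn
  exact hw ⟨t, ht, hn⟩

/-- the case of a set of natural numbers -/
theorem keep_win_nat (P : Set ℕ) {G : ℕ → ℝ} {d : ℝ}
    (hG : Expanding G d) {s κ B : ℝ} (hs : 0 ≤ s) (hκ : 0 ≤ κ) (hB : 1 ≤ B) (h1 : B * (d * s + κ) < 1)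
    (hP : ∀ ε : ℝ, 0 < ε → ∃ C : ℝ, ∀ X : ℕ, 1 ≤ X →
      (((Ioc 0 X).filter (fun t => t ∈ P)).card : ℝ) ≤ C * (X : ℝ) ^ (s + ε)) :
    OnMultiples B (fun w => ∀ n : ℕ, (n = 0 ∨ n ∈ P) → ¬ |(n : ℝ) - G w| ≤ (w : ℝ) ^ κ) := by
  have h := keep_windows {t : ℕ | t = 0 ∨ t ∈ P} (fun t : ℕ => (t : ℝ)) hG hs hκ hB h1 (by
    intro ε hε
    obtain ⟨C, hC⟩ := hP ε hε
    refine ⟨|C| + 1, fun X hX => ?_⟩
    have hX1 : 1 ≤ ⌊X⌋₊ := Nat.le_floor (by exact_mod_cast hX)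
    have hsub : {t : ℕ | t ∈ {t : ℕ | t = 0 ∨ t ∈ P} ∧ (t : ℝ) ≤ X} ⊆
        (((Ioc 0 ⌊X⌋₊).filter (fun t => t ∈ P) ∪ {0} : Finset ℕ) : Set ℕ) := by
      rintro t ⟨ht, htX⟩
      rw [mem_coe, mem_union, mem_filter, mem_Ioc, mem_singleton]
      rcases Nat.eq_zero_or_pos t with h0 | h0
      · right; exact h0
      · left
        refine ⟨⟨h0, Nat.le_floor htX⟩, ?_⟩
        rcases ht with h | h
        · omega
        · exact h
    refine ⟨(finite_toSet _).subset hsub, ?_⟩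
    have h2 := Set.ncard_le_ncard hsub (finite_toSet _)
    rw [Set.ncard_coe_finset] at h2
    have h3 : ((Ioc 0 ⌊X⌋₊).filter (fun t => t ∈ P) ∪ {0} : Finset ℕ).card ≤
        ((Ioc 0 ⌊X⌋₊).filter (fun t => t ∈ P)).card + 1 := (card_union_le _ _).trans (by simp)
    have h4 : (({t : ℕ | t ∈ {t : ℕ | t = 0 ∨ t ∈ P} ∧ (t : ℝ) ≤ X}.ncard : ℕ) : ℝ) ≤
        (((Ioc 0 ⌊X⌋₊).filter (fun t => t ∈ P)).card : ℝ) + 1 := by exact_mod_cast h2.trans h3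
    have h5 : (1 : ℝ) ≤ X ^ (s + ε) := Real.one_le_rpow hX (by linarith)
    have h6 : ((⌊X⌋₊ : ℕ) : ℝ) ^ (s + ε) ≤ X ^ (s + ε) :=
      Real.rpow_le_rpow (Nat.cast_nonneg _) (Nat.floor_le (by linarith)) (by linarith)
    calc _ ≤ (((Ioc 0 ⌊X⌋₊).filter (fun t => t ∈ P)).card : ℝ) + 1 := h4
      _ ≤ C * ((⌊X⌋₊ : ℕ) : ℝ) ^ (s + ε) + 1 := by linarith [hC _ hX1]
      _ ≤ |C| * X ^ (s + ε) + 1 * X ^ (s + ε) := by
        have h7 : C * ((⌊X⌋₊ : ℕ) : ℝ) ^ (s + ε) ≤ |C| * X ^ (s + ε) :=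
          (mul_le_mul_of_nonneg_right (le_abs_self _) (by positivity)).trans
            (mul_le_mul_of_nonneg_left h6 (abs_nonneg _))
        linarith
      _ = (|C| + 1) * X ^ (s + ε) := by ring)
  exact h.mono (fun w _ hw n hn => hw n hn)

/-- the same for a property: for almost all `m` every `t` with `Adm t` and a height near `G w`, `w` any common multiple,
is good -/
theorem keep_good {T : Type*} (Adm Good : T → Prop) (h : T → ℝ) {G : ℕ → ℝ} {d : ℝ}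
    (hG : Expanding G d) {s κ B : ℝ} (hs : 0 ≤ s) (hκ : 0 ≤ κ) (hB : 1 ≤ B) (h1 : B * (d * s + κ) < 1)
    (hS : ∀ ε : ℝ, 0 < ε → ∃ C : ℝ, ∀ X : ℝ, 1 ≤ X →
      {t | (Adm t ∧ ¬ Good t) ∧ h t ≤ X}.Finite ∧
        ({t | (Adm t ∧ ¬ Good t) ∧ h t ≤ X}.ncard : ℝ) ≤ C * X ^ (s + ε)) :
    OnMultiples B (fun w => ∀ t, Adm t → |h t - G w| ≤ (w : ℝ) ^ κ → Good t) := by
  refine (keep_windows {t | Adm t ∧ ¬ Good t} h hG hs hκ hB h1 hS).mono ?_
  intro w _ hw t ht hn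
  by_contra hg
  exact hw t ⟨ht, hg⟩ hn

/-- the same for natural numbers -/
theorem keep_good_nat (Adm Good : ℕ → Prop) {G : ℕ → ℝ} {d : ℝ}
    (hG : Expanding G d) {s κ B : ℝ} (hs : 0 ≤ s) (hκ : 0 ≤ κ) (hB : 1 ≤ B) (h1 : B * (d * s + κ) < 1)
    (hP : ∀ ε : ℝ, 0 < ε → ∃ C : ℝ, ∀ X : ℕ, 1 ≤ X →
      ({t : ℕ | 1 ≤ t ∧ t ≤ X ∧ Adm t ∧ ¬ Good t}.ncard : ℝ) ≤ C * (X : ℝ) ^ (s + ε)) :
    OnMultiples B (fun w => ∀ n : ℕ, 1 ≤ n → Adm n → |(n : ℝ) - G w| ≤ (w : ℝ) ^ κ → Good n) := by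
  refine (keep_win_nat {t | Adm t ∧ ¬ Good t} hG hs hκ hB h1 (fun ε hε => by
    obtain ⟨C, hC⟩ := hP ε hε
    refine ⟨C, fun X hX => le_trans (le_of_eq ?_) (hC X hX)⟩
    congr 1
    rw [← Set.ncard_coe_finset]
    congr 1
    ext t
    simp only [coe_filter, mem_Ioc, Set.mem_ofPred_eq]
    constructor
    · rintro ⟨⟨a1, a2⟩, a3⟩
      exact ⟨a1, a2, a3⟩
    · rintro ⟨a1, a2, a3⟩
      exact ⟨⟨a1, a2⟩, a3⟩)).mono ?_
  intro w _ hw n _ hn hnear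
  by_contra hg
  exact hw n (Or.inr ⟨hn, hg⟩) hnear

end Pool.Agent.N790.CM
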