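import Mathlib
import Pool.Agent.N790.CM.D

set_option autoImplicit false

/-! Common multiples of the values `f p`, `p ∣ m`: tuples (helper790). -/

namespace Pool.Agent.N790.CM

open Finset Classical

lemma num_tuples {k A : ℕ} {γ : ℝ} (hγ : γ < k) (C : ℝ) : ∃ N₀ : ℕ, ∀ N : ℕ, N₀ ≤ N →
    2 ≤ N ∧ 2 * (k : ℝ) ≤ Real.log N ∧ C * (N : ℝ) ^ γ ≤ (N : ℝ) ^ k / (2 * Real.log N ^ A) := by
  have h1 : ∀ᶠ x : ℝ in Filter.atTop, Real.log x ^ (A : ℝ) ≤ 1 / (2 * (|C| + 1)) * x ^ ((k : ℝ) - γ) := by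
    have h := (isLittleO_log_rpow_rpow_atTop (A : ℝ) (by linarith : 0 < (k : ℝ) - γ)).bound
      (show (0 : ℝ) < 1 / (2 * (|C| + 1)) by positivity)
    filter_upwards [h, Filter.eventually_ge_atTop (1 : ℝ)] with x hx h1
    rwa [Real.norm_of_nonneg (Real.rpow_nonneg (Real.log_nonneg h1) _),
      Real.norm_of_nonneg (Real.rpow_nonneg (by linarith) _)] at hx
  have h2 := Real.tendsto_log_atTop.eventually_ge_atTop (2 * (k : ℝ) + 1)
  have h3 := (tendsto_natCast_atTop_atTop (R := ℝ)).eventually (h1.and h2)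
  obtain ⟨N₀, hN₀⟩ := Filter.eventually_atTop.1 (h3.and (Filter.eventually_ge_atTop 2))
  refine ⟨N₀, fun N hN => ?_⟩
  obtain ⟨⟨a1, a2⟩, a3⟩ := hN₀ N hN
  refine ⟨a3, by linarith, ?_⟩
  have hN0 : (0 : ℝ) < N := by exact_mod_cast (by omega : 0 < N)
  have hk0 : (0 : ℝ) ≤ k := Nat.cast_nonneg _
  have hL0 : 0 < Real.log N := by linarith
  rw [le_div_iff₀ (by positivity)]
  rw [Real.rpow_natCast] at a1
  have h4 : C * (N : ℝ) ^ γ ≤ (|C| + 1) * (N : ℝ) ^ γ :=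
    mul_le_mul_of_nonneg_right (by linarith [le_abs_self C]) (by positivity)
  calc C * (N : ℝ) ^ γ * (2 * Real.log N ^ A) ≤ (|C| + 1) * (N : ℝ) ^ γ *
        (2 * (1 / (2 * (|C| + 1)) * (N : ℝ) ^ ((k : ℝ) - γ))) := by
        apply mul_le_mul h4 _ (by positivity) (by positivity)
        linarith
    _ = (N : ℝ) ^ γ * (N : ℝ) ^ ((k : ℝ) - γ) := by field_simp
    _ = (N : ℝ) ^ k := by
      rw [← Real.rpow_add hN0, ← Real.rpow_natCast]
      congr 1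
      ring

/-- **Tuples.** If `W` has at most `C₀ N^(B s)` elements in the box of side `N^B` and `B s < k`, then for all but
`N^k / (log N)^A` of the `m ∈ {1, …, N}^k` no element of `W` in this box consists of common multiples for `m`. -/
theorem tuples {k : ℕ} (hk : 1 ≤ k) {F : Fin k → ℕ → ℕ} {T : ℕ} (hF : ∀ i, FewTimes (F i) T) {B s : ℝ} (hB : 0 ≤ B)
    (hs : B * s < k) (A : ℕ) (C₀ : ℝ) : ∃ N₀ : ℕ, ∀ N : ℕ, N₀ ≤ N → ∀ W : Set (Fin k → ℕ),
      ({w : Fin k → ℕ | w ∈ W ∧ ∀ i, 1 ≤ w i ∧ (w i : ℝ) ≤ (N : ℝ) ^ B}.ncard : ℝ) ≤ C₀ * (N : ℝ) ^ (B * s) →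
      ({m : Fin k → ℕ | (∀ i, 1 ≤ m i ∧ m i ≤ N) ∧ ∃ w ∈ W, ∀ i, 1 ≤ w i ∧ (w i : ℝ) ≤ (N : ℝ) ^ B ∧
        Carries (F i) (Real.exp √(Real.log N)) (m i) (w i)}.ncard : ℝ) ≤ (N : ℝ) ^ k / Real.log N ^ A := by
  have hk1 : (1 : ℝ) ≤ k := by exact_mod_cast hk
  obtain ⟨δ, hδ⟩ : ∃ δ : ℝ, δ = (k - B * s) / (2 * k) := ⟨_, rfl⟩
  have hδ0 : 0 < δ := by
    rw [hδ]
    apply div_pos (by linarith) (by linarith)
  have hδk : k * δ = (k - B * s) / 2 := by rw [hδ]; field_simp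
  choose n₀ hn₀ using fun i => fibres (hF i) hδ0 hB (A + 1)
  obtain ⟨N₁, hN₁⟩ := num_tuples (k := k) (A := A) (γ := B * s + k * δ) (by rw [hδk]; linarith) (max C₀ 0)
  refine ⟨max N₁ (univ.sup n₀), fun N hN W hW => ?_⟩
  obtain ⟨b1, b2, b3⟩ := hN₁ N ((le_max_left _ _).trans hN)
  have hN0 : (0 : ℝ) < N := by exact_mod_cast (by omega : 0 < N)
  have hL0 : 0 < Real.log N := by linarith
  have hS := fun i => hn₀ i N (((le_sup (mem_univ i)).trans (le_max_right _ _)).trans hN)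
  choose S hS1 hS2 using hS
  obtain ⟨X, hX⟩ : ∃ X : ℕ, X = ⌊(N : ℝ) ^ B⌋₊ := ⟨_, rfl⟩
  have hfin : {w : Fin k → ℕ | w ∈ W ∧ ∀ i, 1 ≤ w i ∧ (w i : ℝ) ≤ (N : ℝ) ^ B}.Finite := by
    refine (Set.Finite.pi' (fun _ : Fin k => Set.finite_Icc 1 X)).subset ?_
    intro w hw i
    refine ⟨(hw.2 i).1, ?_⟩
    rw [hX]
    exact Nat.le_floor (hw.2 i).2
  obtain ⟨V, hV⟩ : ∃ V, V = hfin.toFinset := ⟨_, rfl⟩
  obtain ⟨Mw, hMw⟩ : ∃ Mw : Fin k → ℕ → Finset ℕ, Mw = fun i w => (Icc 1 N).filter (fun m => m ∉ S i ∧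
    Carries (F i) (Real.exp √(Real.log N)) m w) := ⟨_, rfl⟩
  obtain ⟨P1, hP1⟩ : ∃ P1 : Fin k → Finset (Fin k → ℕ), P1 = fun i => Fintype.piFinset
    (fun j => if j = i then S i else Icc 1 N) := ⟨_, rfl⟩
  obtain ⟨P2, hP2⟩ : ∃ P2 : (Fin k → ℕ) → Finset (Fin k → ℕ), P2 = fun w => Fintype.piFinset
    (fun j => Mw j (w j)) := ⟨_, rfl⟩
  have hsub : {m : Fin k → ℕ | (∀ i, 1 ≤ m i ∧ m i ≤ N) ∧ ∃ w ∈ W, ∀ i, 1 ≤ w i ∧ (w i : ℝ) ≤ (N : ℝ) ^ B ∧
        Carries (F i) (Real.exp √(Real.log N)) (m i) (w i)} ⊆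
      ((univ.biUnion P1 ∪ V.biUnion P2 : Finset (Fin k → ℕ)) : Set (Fin k → ℕ)) := by
    rintro m ⟨h1, w, hw, h2⟩
    rw [mem_coe, mem_union, mem_biUnion, mem_biUnion]
    by_cases h3 : ∃ i, m i ∈ S i
    · obtain ⟨i, hi⟩ := h3
      left
      refine ⟨i, mem_univ i, ?_⟩
      rw [hP1, Fintype.mem_piFinset]
      intro j
      split_ifs with h
      · subst h; exact hi
      · exact mem_Icc.2 (h1 j)
    · push Not at h3
      right
      refine ⟨w, ?_, ?_⟩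
      · rw [hV, Set.Finite.mem_toFinset]
        exact ⟨hw, fun i => ⟨(h2 i).1, (h2 i).2.1⟩⟩
      · rw [hP2, Fintype.mem_piFinset]
        intro j
        rw [hMw, mem_filter]
        exact ⟨mem_Icc.2 (h1 j), h3 j, (h2 j).2.2⟩
  have h1 := Set.ncard_le_ncard hsub (finite_toSet _)
  rw [Set.ncard_coe_finset] at h1
  have h2 : ((univ.biUnion P1 ∪ V.biUnion P2).card : ℝ) ≤ ∑ i, ((P1 i).card : ℝ) + ∑ w ∈ V, ((P2 w).card : ℝ) := by
    have e1 := card_union_le (univ.biUnion P1) (V.biUnion P2)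
    have e2 : (univ.biUnion P1).card ≤ ∑ i, (P1 i).card := card_biUnion_le
    have e3 : (V.biUnion P2).card ≤ ∑ w ∈ V, (P2 w).card := card_biUnion_le
    have e4 := e1.trans (add_le_add e2 e3)
    exact_mod_cast e4
  have h3 : ∀ i, ((P1 i).card : ℝ) ≤ (N : ℝ) ^ k / Real.log N ^ (A + 1) := by
    intro i
    have e1 : (P1 i).card = (S i).card * N ^ (k - 1) := by
      rw [hP1, Fintype.card_piFinset, ← Finset.mul_prod_erase univ _ (mem_univ i), if_pos rfl]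
      congr 1
      rw [Finset.prod_congr rfl (fun j hj => by rw [if_neg (Finset.ne_of_mem_erase hj)]), prod_const,
        card_erase_of_mem (mem_univ i), card_univ, Fintype.card_fin, Nat.card_Icc, Nat.add_sub_cancel]
    rw [e1]
    push_cast
    calc ((S i).card : ℝ) * (N : ℝ) ^ (k - 1) ≤ N / Real.log N ^ (A + 1) * (N : ℝ) ^ (k - 1) :=
          mul_le_mul_of_nonneg_right (hS1 i) (by positivity)
      _ = (N : ℝ) ^ k / Real.log N ^ (A + 1) := by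
        have e2 : (N : ℝ) ^ k = (N : ℝ) * (N : ℝ) ^ (k - 1) := by
          rw [← pow_succ']
          congr 1
          omega
        rw [e2]
        ring
  have h4 : ∀ w ∈ V, ((P2 w).card : ℝ) ≤ (N : ℝ) ^ (k * δ) := by
    intro w hw
    rw [hV, Set.Finite.mem_toFinset] at hw
    rw [hP2, Fintype.card_piFinset]
    push_cast
    calc ∏ j, ((Mw j (w j)).card : ℝ) ≤ ∏ _j : Fin k, (N : ℝ) ^ δ := by
          apply prod_le_prod
          · intro j _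
            positivity
          · intro j _
            rw [hMw]
            exact hS2 j (w j) (hw.2 j).1 (hw.2 j).2
      _ = (N : ℝ) ^ (k * δ) := by
        rw [prod_const, card_univ, Fintype.card_fin, ← Real.rpow_natCast, ← Real.rpow_mul hN0.le]
        congr 1
        ring
  have hVc : (V.card : ℝ) ≤ max C₀ 0 * (N : ℝ) ^ (B * s) := by
    have e1 : (V.card : ℝ) ≤ C₀ * (N : ℝ) ^ (B * s) := by
      rw [hV, ← Set.ncard_eq_toFinset_card _ hfin]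
      exact hW
    exact e1.trans (mul_le_mul_of_nonneg_right (le_max_left _ _) (by positivity))
  have h5 : ∑ w ∈ V, ((P2 w).card : ℝ) ≤ (N : ℝ) ^ k / (2 * Real.log N ^ A) := by
    refine (sum_le_sum h4).trans ?_
    rw [sum_const, nsmul_eq_mul]
    calc (V.card : ℝ) * (N : ℝ) ^ (k * δ) ≤ max C₀ 0 * (N : ℝ) ^ (B * s) * (N : ℝ) ^ (k * δ) :=
          mul_le_mul_of_nonneg_right hVc (by positivity)
      _ = max C₀ 0 * (N : ℝ) ^ (B * s + k * δ) := by rw [mul_assoc, ← Real.rpow_add hN0]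
      _ ≤ _ := b3
  have h6 : ∑ i, ((P1 i).card : ℝ) ≤ (N : ℝ) ^ k / (2 * Real.log N ^ A) := by
    refine (sum_le_sum (fun i _ => h3 i)).trans ?_
    rw [sum_const, card_univ, Fintype.card_fin, nsmul_eq_mul, pow_succ]
    have e1 : (k : ℝ) * ((N : ℝ) ^ k / (Real.log N ^ A * Real.log N)) =
        (k / Real.log N) * ((N : ℝ) ^ k / Real.log N ^ A) := by
      field_simp
    have e2 : (N : ℝ) ^ k / (2 * Real.log N ^ A) = (1 / 2) * ((N : ℝ) ^ k / Real.log N ^ A) := by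
      field_simp
    rw [e1, e2]
    apply mul_le_mul_of_nonneg_right _ (by positivity)
    rw [div_le_div_iff₀ hL0 (by norm_num)]
    linarith
  calc _ ≤ ((univ.biUnion P1 ∪ V.biUnion P2).card : ℝ) := by exact_mod_cast h1
    _ ≤ _ := h2
    _ ≤ (N : ℝ) ^ k / (2 * Real.log N ^ A) + (N : ℝ) ^ k / (2 * Real.log N ^ A) := add_le_add h6 h5
    _ = _ := by
      field_simp
      norm_num

end Pool.Agent.N790.CM
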