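import Mathlib
import Pool.Agent.N680.TA.Near
import Pool.Agent.N790.CM.F

set_option autoImplicit false

/-! Common multiples of the values `f p`, `p ∣ m`: pairs in boxes with different sides (helper790). -/

namespace Pool.Agent.N790.CM

open Finset Classical

lemma Carries.mono {f : ℕ → ℕ} {y y' : ℝ} {m w : ℕ} (h : Carries f y m w) (hy : y ≤ y') : Carries f y' m w :=
  fun p hp hyp hpm hp2 => h p hp (lt_of_le_of_lt hy hyp) hpm hp2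

/-- **Pairs near common multiples, boxes with different sides.** If `E R` has at most `M R^s` elements in the box
`|A| ≤ R^p`, `|B| ≤ R^q` and `D (s + (p + q) κ) < p + q`, `D ≥ 1`, then for all but `N^(p + q) / (log N)^U` of the pairs
`(m, n)`, `m ≤ N^p`, `n ≤ N^q`, no pair `(A, B)` in `E N` is near `(α w, β v)` for ANY common multiples `w ≤ N^(D p)` for
`m` and `v ≤ N^(D q)` for `n`. -/
theorem near_boxes {f g : ℕ → ℕ} {T : ℕ} (hf : FewTimes f T) (hg : FewTimes g T) {p q : ℕ} (hp : 1 ≤ p) (hq : 1 ≤ q)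
    {s κ M D : ℝ} (hs : 0 ≤ s) (hκ : 0 ≤ κ) (hD : 1 ≤ D) (hsk : D * (s + (p + q) * κ) < p + q) (hM : 0 ≤ M)
    (E : ℝ → Set (ℤ × ℤ)) (hmono : ∀ R R' : ℝ, R ≤ R' → E R ⊆ E R')
    (hE : ∀ R : ℝ, 1 ≤ R → {P : ℤ × ℤ | |(P.1 : ℝ)| ≤ R ^ p ∧ |(P.2 : ℝ)| ≤ R ^ q ∧ P ∈ E R}.Finite ∧
      ({P : ℤ × ℤ | |(P.1 : ℝ)| ≤ R ^ p ∧ |(P.2 : ℝ)| ≤ R ^ q ∧ P ∈ E R}.ncard : ℝ) ≤ M * R ^ s)
    {α β : ℝ} (hα : α ≠ 0) (hβ : β ≠ 0) (U : ℕ) :
    ∃ N₀ : ℕ, ∀ N : ℕ, N₀ ≤ N →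
      ({m : ℕ × ℕ | (1 ≤ m.1 ∧ m.1 ≤ N ^ p) ∧ (1 ≤ m.2 ∧ m.2 ≤ N ^ q) ∧ ∃ w v : ℕ,
        (1 ≤ w ∧ (w : ℝ) ≤ (N : ℝ) ^ (D * p) ∧ Carries f (Real.exp √(Real.log N)) m.1 w) ∧
        (1 ≤ v ∧ (v : ℝ) ≤ (N : ℝ) ^ (D * q) ∧ Carries g (Real.exp √(Real.log N)) m.2 v) ∧ ∃ A B : ℤ,
        |A - α * w| ≤ (w : ℝ) ^ κ ∧ |B - β * v| ≤ (v : ℝ) ^ κ ∧ (A, B) ∈ E N}.ncard : ℝ) ≤
        (N : ℝ) ^ (p + q) / Real.log N ^ U := by
  have hp' : (1 : ℝ) ≤ p := by exact_mod_cast hp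
  have hq' : (1 : ℝ) ≤ q := by exact_mod_cast hq
  obtain ⟨t, ht⟩ : ∃ t : ℝ, t = s + (p + q) * κ := ⟨_, rfl⟩
  rw [← ht] at hsk
  have ht0 : 0 ≤ t := by rw [ht]; positivity
  have htD : t ≤ D * t := le_mul_of_one_le_left ht0 hD
  have hκ1 : κ ≤ 1 := by
    by_contra hc
    push Not at hc
    have : (p + q : ℝ) * 1 ≤ (p + q) * κ := mul_le_mul_of_nonneg_left hc.le (by linarith)
    linarith
  obtain ⟨δ, hδ⟩ : ∃ δ : ℝ, δ = (p + q - D * t) / (2 * (p + q)) := ⟨_, rfl⟩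
  have hδ0 : 0 < δ := by
    rw [hδ]
    apply div_pos (by linarith) (by linarith)
  have hδk : (p + q) * δ = (p + q - D * t) / 2 := by rw [hδ]; field_simp
  obtain ⟨K, hK⟩ : ∃ K : ℝ, K = |α| + |β| + 1 := ⟨_, rfl⟩
  have hα0 := abs_nonneg α
  have hβ0 := abs_nonneg β
  have hK1 : 1 ≤ K := by rw [hK]; linarith
  obtain ⟨M', hM'⟩ : ∃ M' : ℝ, M' = M * K ^ s * ((2 / |α| + 1) * (2 / |β| + 1)) := ⟨_, rfl⟩
  have hM'0 : 0 ≤ M' := by rw [hM']; positivity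
  obtain ⟨n₁, hn₁⟩ := fibres hf hδ0 (B := D) (by linarith) (U + 1)
  obtain ⟨n₂, hn₂⟩ := fibres hg hδ0 (B := D) (by linarith) (U + 1)
  obtain ⟨n₃, hn₃⟩ := num_tuples (k := p + q) (A := U) (γ := D * t + (p + q) * δ) (by push_cast; rw [hδk]; linarith) M'
  refine ⟨max n₁ (max n₂ n₃), fun N hN => ?_⟩
  have c1 : n₁ ≤ N := (le_max_left _ _).trans hN
  have c2 : n₂ ≤ N := ((le_max_left _ _).trans (le_max_right _ _)).trans hN
  have c3 : n₃ ≤ N := ((le_max_right _ _).trans (le_max_right _ _)).trans hN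
  obtain ⟨b1, b2, b3⟩ := hn₃ N c3
  have hN0 : (0 : ℝ) < N := by exact_mod_cast (by omega : 0 < N)
  have hN1 : (1 : ℝ) ≤ N := by exact_mod_cast (by omega : 1 ≤ N)
  have hL0 : 0 < Real.log N := by
    have : (2 : ℝ) ≤ ((p + q : ℕ) : ℝ) := by push_cast; linarith
    linarith
  have hNp : N ≤ N ^ p := Nat.le_self_pow (by omega) N
  have hNq : N ≤ N ^ q := Nat.le_self_pow (by omega) N
  obtain ⟨S₁, hS1, hS1'⟩ := hn₁ (N ^ p) (c1.trans hNp)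
  obtain ⟨S₂, hS2, hS2'⟩ := hn₂ (N ^ q) (c2.trans hNq)
  obtain ⟨Q, hQ⟩ : ∃ Q : ℝ, Q = (N : ℝ) ^ D := ⟨_, rfl⟩
  have hQ1 : 1 ≤ Q := by rw [hQ]; exact Real.one_le_rpow hN1 (by linarith)
  have hQ0 : 0 < Q := by linarith
  have hNQ : (N : ℝ) ≤ Q := by
    rw [hQ]
    calc (N : ℝ) = (N : ℝ) ^ (1 : ℝ) := (Real.rpow_one _).symm
      _ ≤ _ := Real.rpow_le_rpow_of_exponent_le hN1 hD
  have eQ : ∀ r : ℕ, ((N ^ r : ℕ) : ℝ) ^ D = Q ^ r := by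
    intro r
    rw [hQ, Nat.cast_pow, ← Real.rpow_natCast, ← Real.rpow_natCast, ← Real.rpow_mul hN0.le, ← Real.rpow_mul hN0.le]
    congr 1
    ring
  have eQ' : ∀ r : ℕ, (N : ℝ) ^ (D * r) = Q ^ r := by
    intro r
    rw [hQ, ← Real.rpow_natCast, ← Real.rpow_mul hN0.le]
  obtain ⟨X, hX⟩ : ∃ X : ℕ, X = ⌊Q ^ p⌋₊ := ⟨_, rfl⟩
  obtain ⟨Y, hY⟩ : ∃ Y : ℕ, Y = ⌊Q ^ q⌋₊ := ⟨_, rfl⟩
  have hQp : 1 ≤ Q ^ p := one_le_pow₀ hQ1
  have hQq : 1 ≤ Q ^ q := one_le_pow₀ hQ1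
  have hXQ : (X : ℝ) ≤ Q ^ p := by rw [hX]; exact Nat.floor_le (by positivity)
  have hYQ : (Y : ℝ) ≤ Q ^ q := by rw [hY]; exact Nat.floor_le (by positivity)
  have hX1 : 1 ≤ X := by rw [hX]; exact Nat.le_floor (by rw [Nat.cast_one]; exact hQp)
  have hY1 : 1 ≤ Y := by rw [hY]; exact Nat.le_floor (by rw [Nat.cast_one]; exact hQq)
  obtain ⟨hfin, hcard⟩ := hE (K * Q) (one_le_mul_of_one_le_of_one_le hK1 hQ1)
  obtain ⟨V, hV⟩ : ∃ V : Finset (ℕ × ℕ), V = hfin.toFinset.biUnion (fun P =>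
    ((Icc 1 X).filter (fun u : ℕ => |(P.1 : ℝ) - α * u| ≤ (u : ℝ) ^ κ)) ×ˢ
      ((Icc 1 Y).filter (fun u : ℕ => |(P.2 : ℝ) - β * u| ≤ (u : ℝ) ^ κ))) := ⟨_, rfl⟩
  have hVc : (V.card : ℝ) ≤ M' * (N : ℝ) ^ (D * t) := by
    have h1 : (V.card : ℝ) ≤ ∑ P ∈ hfin.toFinset, ((2 / |α| + 1) * (X : ℝ) ^ κ) * ((2 / |β| + 1) * (Y : ℝ) ^ κ) := by
      rw [hV]
      have h0 : ((hfin.toFinset.biUnion (fun P =>
        ((Icc 1 X).filter (fun u : ℕ => |(P.1 : ℝ) - α * u| ≤ (u : ℝ) ^ κ)) ×ˢ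
        ((Icc 1 Y).filter (fun u : ℕ => |(P.2 : ℝ) - β * u| ≤ (u : ℝ) ^ κ)))).card : ℝ) ≤
        ∑ P ∈ hfin.toFinset, ((((Icc 1 X).filter (fun u : ℕ => |(P.1 : ℝ) - α * u| ≤ (u : ℝ) ^ κ)) ×ˢ
        ((Icc 1 Y).filter (fun u : ℕ => |(P.2 : ℝ) - β * u| ≤ (u : ℝ) ^ κ))).card : ℝ) := by
        exact_mod_cast card_biUnion_le
      refine h0.trans (sum_le_sum fun P _ => ?_)
      rw [card_product]
      push_cast
      exact mul_le_mul (Pool.Agent.N680.TA.near_card hα hκ _ hX1) (Pool.Agent.N680.TA.near_card hβ hκ _ hY1)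
        (Nat.cast_nonneg _) (by positivity)
    rw [sum_const, nsmul_eq_mul, ← Set.ncard_eq_toFinset_card _ hfin] at h1
    have h2 : (X : ℝ) ^ κ ≤ Q ^ (p * κ) := by
      rw [Real.rpow_mul hQ0.le, Real.rpow_natCast]
      exact Real.rpow_le_rpow (Nat.cast_nonneg _) hXQ hκ
    have h3 : (Y : ℝ) ^ κ ≤ Q ^ (q * κ) := by
      rw [Real.rpow_mul hQ0.le, Real.rpow_natCast]
      exact Real.rpow_le_rpow (Nat.cast_nonneg _) hYQ hκ
    refine h1.trans ?_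
    calc _ ≤ (M * (K * Q) ^ s) * (((2 / |α| + 1) * Q ^ (p * κ)) * ((2 / |β| + 1) * Q ^ (q * κ))) := by
          apply mul_le_mul hcard _ (by positivity) (by positivity)
          apply mul_le_mul (mul_le_mul_of_nonneg_left h2 (by positivity))
            (mul_le_mul_of_nonneg_left h3 (by positivity)) (by positivity) (by positivity)
      _ = M' * (Q ^ s * Q ^ (p * κ) * Q ^ (q * κ)) := by
          rw [hM', Real.mul_rpow (by linarith) hQ0.le]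
          ring
      _ = M' * (N : ℝ) ^ (D * t) := by
          rw [← Real.rpow_add hQ0, ← Real.rpow_add hQ0, hQ, ← Real.rpow_mul hN0.le, ht]
          congr 3
          ring
  obtain ⟨M₁, hM₁⟩ : ∃ M₁ : ℕ → Finset ℕ, M₁ = fun w => (Icc 1 (N ^ p)).filter (fun m => m ∉ S₁ ∧
    Carries f (Real.exp √(Real.log ((N ^ p : ℕ) : ℝ))) m w) := ⟨_, rfl⟩
  obtain ⟨M₂, hM₂⟩ : ∃ M₂ : ℕ → Finset ℕ, M₂ = fun w => (Icc 1 (N ^ q)).filter (fun m => m ∉ S₂ ∧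
    Carries g (Real.exp √(Real.log ((N ^ q : ℕ) : ℝ))) m w) := ⟨_, rfl⟩
  have hsub : {m : ℕ × ℕ | (1 ≤ m.1 ∧ m.1 ≤ N ^ p) ∧ (1 ≤ m.2 ∧ m.2 ≤ N ^ q) ∧ ∃ w v : ℕ,
        (1 ≤ w ∧ (w : ℝ) ≤ (N : ℝ) ^ (D * p) ∧ Carries f (Real.exp √(Real.log N)) m.1 w) ∧
        (1 ≤ v ∧ (v : ℝ) ≤ (N : ℝ) ^ (D * q) ∧ Carries g (Real.exp √(Real.log N)) m.2 v) ∧ ∃ A B : ℤ,
        |A - α * w| ≤ (w : ℝ) ^ κ ∧ |B - β * v| ≤ (v : ℝ) ^ κ ∧ (A, B) ∈ E N} ⊆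
      (((S₁ ×ˢ Icc 1 (N ^ q)) ∪ (Icc 1 (N ^ p) ×ˢ S₂) ∪ V.biUnion (fun x => M₁ x.1 ×ˢ M₂ x.2) : Finset (ℕ × ℕ)) :
        Set (ℕ × ℕ)) := by
    rintro ⟨m, n⟩ ⟨h1, h2, w, v, ⟨w1, w2, w3⟩, ⟨v1, v2, v3⟩, A, B, h3, h4, h5⟩
    simp only at h1 h2 w3 v3
    rw [mem_coe, mem_union, mem_union]
    by_cases g1 : m ∈ S₁
    · left; left
      exact mem_product.2 ⟨g1, mem_Icc.2 h2⟩
    by_cases g2 : n ∈ S₂
    · left; right
      exact mem_product.2 ⟨mem_Icc.2 h1, g2⟩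
    right
    rw [eQ'] at w2 v2
    have w1' : (1 : ℝ) ≤ w := by exact_mod_cast w1
    have v1' : (1 : ℝ) ≤ v := by exact_mod_cast v1
    have hwκ : (w : ℝ) ^ κ ≤ w := by
      calc (w : ℝ) ^ κ ≤ (w : ℝ) ^ (1 : ℝ) := Real.rpow_le_rpow_of_exponent_le w1' hκ1
        _ = w := Real.rpow_one _
    have hvκ : (v : ℝ) ^ κ ≤ v := by
      calc (v : ℝ) ^ κ ≤ (v : ℝ) ^ (1 : ℝ) := Real.rpow_le_rpow_of_exponent_le v1' hκ1
        _ = v := Real.rpow_one _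
    have hA : |(A : ℝ)| ≤ (K * Q) ^ p := by
      have e1 : |(A : ℝ)| ≤ |α| * w + w := by
        have e2 : |(A : ℝ)| ≤ |(A : ℝ) - α * w| + |α * w| := by
          have := abs_add_le ((A : ℝ) - α * w) (α * w)
          simpa using this
        rw [abs_mul, abs_of_nonneg (by linarith : (0 : ℝ) ≤ w)] at e2
        linarith
      calc |(A : ℝ)| ≤ |α| * w + w := e1
        _ = (|α| + 1) * w := by ring
        _ ≤ K * Q ^ p := mul_le_mul (by rw [hK]; linarith) w2 (by linarith) (by linarith)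
        _ ≤ K ^ p * Q ^ p := mul_le_mul_of_nonneg_right (le_self_pow₀ hK1 (by omega)) (by positivity)
        _ = (K * Q) ^ p := (mul_pow _ _ _).symm
    have hB : |(B : ℝ)| ≤ (K * Q) ^ q := by
      have e1 : |(B : ℝ)| ≤ |β| * v + v := by
        have e2 : |(B : ℝ)| ≤ |(B : ℝ) - β * v| + |β * v| := by
          have := abs_add_le ((B : ℝ) - β * v) (β * v)
          simpa using this
        rw [abs_mul, abs_of_nonneg (by linarith : (0 : ℝ) ≤ v)] at e2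
        linarith
      calc |(B : ℝ)| ≤ |β| * v + v := e1
        _ = (|β| + 1) * v := by ring
        _ ≤ K * Q ^ q := mul_le_mul (by rw [hK]; linarith) v2 (by linarith) (by linarith)
        _ ≤ K ^ q * Q ^ q := mul_le_mul_of_nonneg_right (le_self_pow₀ hK1 (by omega)) (by positivity)
        _ = (K * Q) ^ q := (mul_pow _ _ _).symm
    have hEE : (A, B) ∈ E (K * Q) := hmono _ _ (by
      calc (N : ℝ) ≤ Q := hNQ
        _ ≤ K * Q := le_mul_of_one_le_left hQ0.le hK1) h5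
    rw [mem_biUnion]
    refine ⟨(w, v), ?_, ?_⟩
    · rw [hV, mem_biUnion]
      refine ⟨(A, B), ?_, ?_⟩
      · rw [Set.Finite.mem_toFinset]
        exact ⟨hA, hB, hEE⟩
      · rw [mem_product, mem_filter, mem_filter, mem_Icc, mem_Icc, hX, hY]
        exact ⟨⟨⟨w1, Nat.le_floor w2⟩, h3⟩, ⟨⟨v1, Nat.le_floor v2⟩, h4⟩⟩
    · have ey : ∀ r : ℕ, 1 ≤ r → Real.exp √(Real.log N) ≤ Real.exp √(Real.log ((N ^ r : ℕ) : ℝ)) := by
        intro r hr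
        apply Real.exp_le_exp.2
        apply Real.sqrt_le_sqrt
        apply Real.log_le_log hN0
        exact_mod_cast Nat.le_self_pow (by omega) N
      rw [mem_product, hM₁, hM₂]
      simp only
      rw [mem_filter, mem_filter, mem_Icc, mem_Icc]
      exact ⟨⟨h1, g1, w3.mono (ey p hp)⟩, ⟨h2, g2, v3.mono (ey q hq)⟩⟩
  have h1 := Set.ncard_le_ncard hsub (finite_toSet _)
  rw [Set.ncard_coe_finset] at h1
  have hlog : ∀ r : ℕ, 1 ≤ r → Real.log N ≤ Real.log ((N ^ r : ℕ) : ℝ) := by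
    intro r hr
    apply Real.log_le_log hN0
    exact_mod_cast Nat.le_self_pow (by omega) N
  have q1 : ((S₁ ×ˢ Icc 1 (N ^ q)).card : ℝ) ≤ (N : ℝ) ^ (p + q) / Real.log N ^ (U + 1) := by
    rw [card_product, Nat.card_Icc, Nat.add_sub_cancel]
    push_cast
    calc (S₁.card : ℝ) * (N : ℝ) ^ q ≤ ((N ^ p : ℕ) : ℝ) / Real.log ((N ^ p : ℕ) : ℝ) ^ (U + 1) * (N : ℝ) ^ q :=
          mul_le_mul_of_nonneg_right hS1 (by positivity)
      _ ≤ ((N : ℝ) ^ p / Real.log N ^ (U + 1)) * (N : ℝ) ^ q := by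
        apply mul_le_mul_of_nonneg_right _ (by positivity)
        have e1 : ((N ^ p : ℕ) : ℝ) = (N : ℝ) ^ p := by push_cast; rfl
        rw [← e1]
        apply div_le_div_of_nonneg_left (by positivity) (by positivity)
        exact pow_le_pow_left₀ hL0.le (hlog p hp) _
      _ = _ := by rw [pow_add]; ring
  have q2 : ((Icc 1 (N ^ p) ×ˢ S₂).card : ℝ) ≤ (N : ℝ) ^ (p + q) / Real.log N ^ (U + 1) := by
    rw [card_product, Nat.card_Icc, Nat.add_sub_cancel]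
    push_cast
    calc (N : ℝ) ^ p * (S₂.card : ℝ) ≤ (N : ℝ) ^ p * (((N ^ q : ℕ) : ℝ) / Real.log ((N ^ q : ℕ) : ℝ) ^ (U + 1)) :=
          mul_le_mul_of_nonneg_left hS2 (by positivity)
      _ ≤ (N : ℝ) ^ p * ((N : ℝ) ^ q / Real.log N ^ (U + 1)) := by
        apply mul_le_mul_of_nonneg_left _ (by positivity)
        have e1 : ((N ^ q : ℕ) : ℝ) = (N : ℝ) ^ q := by push_cast; rfl
        rw [← e1]
        apply div_le_div_of_nonneg_left (by positivity) (by positivity)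
        exact pow_le_pow_left₀ hL0.le (hlog q hq) _
      _ = _ := by rw [pow_add]; ring
  have q3 : ((V.biUnion (fun x => M₁ x.1 ×ˢ M₂ x.2)).card : ℝ) ≤ (N : ℝ) ^ (p + q) / (2 * Real.log N ^ U) := by
    have e0 : ((V.biUnion (fun x => M₁ x.1 ×ˢ M₂ x.2)).card : ℝ) ≤ ∑ x ∈ V, (((M₁ x.1 ×ˢ M₂ x.2)).card : ℝ) := by
      exact_mod_cast card_biUnion_le
    have e1 : ∀ x ∈ V, (((M₁ x.1 ×ˢ M₂ x.2)).card : ℝ) ≤ (N : ℝ) ^ ((p + q) * δ) := by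
      intro x hx
      rw [hV, mem_biUnion] at hx
      obtain ⟨P, -, hx⟩ := hx
      rw [mem_product, mem_filter, mem_filter, mem_Icc, mem_Icc] at hx
      have a1 : (x.1 : ℝ) ≤ ((N ^ p : ℕ) : ℝ) ^ D := by
        rw [eQ]
        have : (x.1 : ℝ) ≤ X := by exact_mod_cast hx.1.1.2
        linarith
      have a2 : (x.2 : ℝ) ≤ ((N ^ q : ℕ) : ℝ) ^ D := by
        rw [eQ]
        have : (x.2 : ℝ) ≤ Y := by exact_mod_cast hx.2.1.2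
        linarith
      have c1 := hS1' x.1 hx.1.1.1 a1
      have c2 := hS2' x.2 hx.2.1.1 a2
      rw [card_product]
      push_cast
      rw [hM₁, hM₂]
      calc _ ≤ ((N ^ p : ℕ) : ℝ) ^ δ * ((N ^ q : ℕ) : ℝ) ^ δ :=
            mul_le_mul c1 c2 (Nat.cast_nonneg _) (by positivity)
        _ = (N : ℝ) ^ ((p + q) * δ) := by
          rw [Nat.cast_pow, Nat.cast_pow, ← Real.rpow_natCast, ← Real.rpow_natCast, ← Real.rpow_mul hN0.le,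
            ← Real.rpow_mul hN0.le, ← Real.rpow_add hN0]
          congr 1
          ring
    refine e0.trans ((sum_le_sum e1).trans ?_)
    rw [sum_const, nsmul_eq_mul]
    calc (V.card : ℝ) * (N : ℝ) ^ ((p + q) * δ) ≤ M' * (N : ℝ) ^ (D * t) * (N : ℝ) ^ ((p + q) * δ) :=
          mul_le_mul_of_nonneg_right hVc (by positivity)
      _ = M' * (N : ℝ) ^ (D * t + (p + q) * δ) := by rw [mul_assoc, ← Real.rpow_add hN0]
      _ ≤ _ := b3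
  have q4 : (N : ℝ) ^ (p + q) / Real.log N ^ (U + 1) ≤ (1 / 4) * ((N : ℝ) ^ (p + q) / Real.log N ^ U) := by
    have hL4 : 4 ≤ Real.log N := by
      have : (2 : ℝ) ≤ ((p + q : ℕ) : ℝ) := by push_cast; linarith
      linarith
    rw [pow_succ, ← div_div, div_le_iff₀ hL0]
    have e1 : 0 ≤ (N : ℝ) ^ (p + q) / Real.log N ^ U := by positivity
    nlinarith
  have q5 : (N : ℝ) ^ (p + q) / (2 * Real.log N ^ U) = (1 / 2) * ((N : ℝ) ^ (p + q) / Real.log N ^ U) := by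
    field_simp
  have h2 : (((S₁ ×ˢ Icc 1 (N ^ q)) ∪ (Icc 1 (N ^ p) ×ˢ S₂) ∪ V.biUnion (fun x => M₁ x.1 ×ˢ M₂ x.2)).card : ℝ) ≤
      (S₁ ×ˢ Icc 1 (N ^ q)).card + (Icc 1 (N ^ p) ×ˢ S₂).card + (V.biUnion (fun x => M₁ x.1 ×ˢ M₂ x.2)).card := by
    have a1 := card_union_le ((S₁ ×ˢ Icc 1 (N ^ q)) ∪ (Icc 1 (N ^ p) ×ˢ S₂)) (V.biUnion (fun x => M₁ x.1 ×ˢ M₂ x.2))
    have a2 := card_union_le (S₁ ×ˢ Icc 1 (N ^ q)) (Icc 1 (N ^ p) ×ˢ S₂)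
    have a3 := a1.trans (Nat.add_le_add_right a2 _)
    exact_mod_cast a3
  calc _ ≤ (((S₁ ×ˢ Icc 1 (N ^ q)) ∪ (Icc 1 (N ^ p) ×ˢ S₂) ∪ V.biUnion (fun x => M₁ x.1 ×ˢ M₂ x.2)).card : ℝ) := by
        exact_mod_cast h1
    _ ≤ _ := h2
    _ ≤ (N : ℝ) ^ (p + q) / Real.log N ^ U := by
      rw [q5] at q3
      linarith

end Pool.Agent.N790.CM
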